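import Pool.Agent.Helper59.Rotation.Quad

/-!
# Commuting families of bicontractive projections on separable spaces
-/

open Filter Topology

universe u

namespace Helper59.Rotation

variable {E : Type u} [NormedAddCommGroup E] [NormedSpace ℝ E]

/-- finite products isolate a vector of a disjoint family -/
theorem isolate (𝔓 : Set (E →ₗ[ℝ] E)) (hcon : ∀ R ∈ 𝔓, ∀ x, ‖R x‖ ≤ ‖x‖)
    (hcomm : ∀ R ∈ 𝔓, ∀ S ∈ 𝔓, ∀ x, R (S x) = S (R x)) (a : E) (F : Finset E)
    (hF : ∀ b ∈ F, b ≠ a → ∃ R ∈ 𝔓, R a = a ∧ R b = 0) :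
    ∃ U : E →ₗ[ℝ] E, U a = a ∧ (∀ b ∈ F, b ≠ a → U b = 0) ∧ (∀ x, ‖U x‖ ≤ ‖x‖) ∧
      ∀ R ∈ 𝔓, ∀ x, R (U x) = U (R x) := by
  classical
  induction F using Finset.induction_on with
  | empty =>
    exact ⟨LinearMap.id, rfl, by simp, fun x => le_rfl, fun R _ x => rfl⟩
  | insert b F hb ih =>
    obtain ⟨U, hUa, hUF, hUc, hUR⟩ := ih (fun c hc hca => hF c (Finset.mem_insert_of_mem hc) hca)
    by_cases hba : b = a
    · refine ⟨U, hUa, ?_, hUc, hUR⟩
      intro c hc hca
      rcases Finset.mem_insert.mp hc with h | h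
      · exact absurd (h.trans hba) hca
      · exact hUF c h hca
    · obtain ⟨R, hR, hRa, hRb⟩ := hF b (Finset.mem_insert_self _ _) hba
      refine ⟨U ∘ₗ R, ?_, ?_, ?_, ?_⟩
      · simp [hRa, hUa]
      · intro c hc hca
        rcases Finset.mem_insert.mp hc with h | h
        · rw [h]; simp [hRb]
        · simp only [LinearMap.comp_apply]
          rw [← hUR R hR, hUF c h hca, map_zero]
      · intro x
        exact (hUc _).trans (hcon R hR x)
      · intro S hS x
        simp only [LinearMap.comp_apply]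
        rw [hUR S hS, hcomm S hS R hR]

/-- On a separable Banach space a commuting, complement-closed family of contractive projections
has a separating vector. -/
theorem exists_separating [CompleteSpace E] [TopologicalSpace.SeparableSpace E]
    (𝔓 : Set (E →ₗ[ℝ] E)) (hidem : ∀ R ∈ 𝔓, ∀ x, R (R x) = R x)
    (hcon : ∀ R ∈ 𝔓, ∀ x, ‖R x‖ ≤ ‖x‖)
    (hcompl : ∀ R ∈ 𝔓, LinearMap.id - R ∈ 𝔓)
    (hcomm : ∀ R ∈ 𝔓, ∀ S ∈ 𝔓, ∀ x, R (S x) = S (R x)) :
    ∃ x : E, ∀ R ∈ 𝔓, R x = 0 → ∀ y, R y = 0 := by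
  classical
  set S : Set (Set E) := {A | (∀ a ∈ A, ‖a‖ = 1) ∧
    A.Pairwise (fun a b => ∃ R ∈ 𝔓, R a = a ∧ R b = 0)} with hS
  obtain ⟨A, hA⟩ : ∃ A, Maximal (· ∈ S) A := by
    apply zorn_subset S
    intro c hcS hc
    refine ⟨⋃₀ c, ⟨?_, ?_⟩, fun s hs => Set.subset_sUnion_of_mem hs⟩
    · rintro a ⟨s, hs, has⟩
      exact (hcS hs).1 a has
    · exact (Set.pairwise_sUnion hc.directedOn).mpr (fun s hs => (hcS hs).2)
  obtain ⟨⟨hAn, hAp⟩, hmax⟩ := hA
  have hcount : A.Countable := by
    have hdisj : A.PairwiseDisjoint (fun a : E => Metric.ball a (1 / 2)) := by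
      intro a ha b hb hab
      obtain ⟨R, hR, hRa, hRb⟩ := hAp ha hb hab
      have h1 : 1 ≤ ‖a - b‖ := by
        have := hcon R hR (a - b)
        rw [map_sub, hRa, hRb, sub_zero, hAn a ha] at this
        exact this
      refine Metric.ball_disjoint_ball ?_
      rw [dist_eq_norm]; linarith
    exact hdisj.countable_of_isOpen (fun a _ => Metric.isOpen_ball)
      (fun a _ => ⟨a, Metric.mem_ball_self (by norm_num)⟩)
  have : Countable A := hcount.to_subtype
  have : Encodable A := Encodable.ofCountable A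
  obtain ⟨w, hw, c, hwc, -⟩ := posSumOfEncodable (one_pos (α := ℝ)) A
  have hsum : Summable (fun a : A => w a • (a : E)) := by
    apply Summable.of_norm
    refine hwc.summable.congr ?_
    intro a
    rw [norm_smul, hAn a a.2, mul_one, Real.norm_eq_abs, abs_of_pos (hw a)]
  refine ⟨∑' a : A, w a • (a : E), ?_⟩
  intro R hR hRx
  set x := ∑' a : A, w a • (a : E) with hx
  have hxs : HasSum (fun a : A => w a • (a : E)) x := hsum.hasSum
  -- every member of the family is killed
  have hkill : ∀ a : A, R a = 0 := by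
    intro a
    have hbound : ∀ F : Finset A, a ∈ F →
        ‖w a • R (a : E)‖ ≤ ‖x - ∑ b ∈ F, w b • (b : E)‖ := by
      intro F haF
      obtain ⟨U, hUa, hUF, hUc, hUR⟩ := isolate 𝔓 hcon hcomm (a : E)
        (F.map (Function.Embedding.subtype _)) (by
          intro b hb hba
          rw [Finset.mem_map] at hb
          obtain ⟨b', _, rfl⟩ := hb
          exact hAp a.2 b'.2 (fun h => hba h.symm))
      have h1 : U (∑ b ∈ F, w b • (b : E)) = w a • (a : E) := by
        rw [map_sum]
        rw [Finset.sum_eq_single a]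
        · rw [map_smul, hUa]
        · intro b hb hba
          rw [map_smul, hUF b (by
            rw [Finset.mem_map]; exact ⟨b, hb, rfl⟩) (fun h => hba (Subtype.ext h)), smul_zero]
        · intro h; exact absurd haF h
      have h2 : w a • R (a : E) = - R (U (x - ∑ b ∈ F, w b • (b : E))) := by
        rw [map_sub, h1, map_sub, hUR R hR, hRx, map_zero, map_smul]; simp
      rw [h2, norm_neg]
      exact (hcon R hR _).trans (hUc _)
    have hzero : ‖w a • R (a : E)‖ ≤ 0 := by
      refine le_of_forall_pos_le_add fun ε hε => ?_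
      have h1 : Tendsto (fun F : Finset A => ‖x - ∑ b ∈ F, w b • (b : E)‖) atTop (𝓝 0) := by
        have := (tendsto_const_nhds (x := x)).sub hxs
        rw [sub_self] at this
        have := this.norm
        rwa [norm_zero] at this
      have h2 := (h1.eventually (gt_mem_nhds hε)).and (eventually_ge_atTop ({a} : Finset A))
      obtain ⟨F, hF1, hF2⟩ := h2.exists
      have := hbound F (hF2 (Finset.mem_singleton_self a))
      linarith
    have h3 : w a • R (a : E) = 0 := norm_le_zero_iff.mp hzero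
    rcases smul_eq_zero.mp h3 with h | h
    · exact absurd h (hw a).ne'
    · exact h
  -- maximality
  intro y
  by_contra hy
  have hyn : ‖R y‖ ≠ 0 := norm_ne_zero_iff.mpr hy
  set b : E := ‖R y‖⁻¹ • R y with hb
  have hbn : ‖b‖ = 1 := by
    rw [hb, norm_smul, norm_inv, norm_norm, inv_mul_cancel₀ hyn]
  have hRb : R b = b := by rw [hb, map_smul, hidem R hR]
  have hins : insert b A ∈ S := by
    refine ⟨?_, ?_⟩
    · intro a ha
      rcases ha with h | h
      · rw [h]; exact hbn
      · exact hAn a h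
    · refine Set.Pairwise.insert hAp ?_
      intro a ha _
      have hRa : R a = 0 := hkill ⟨a, ha⟩
      refine ⟨⟨R, hR, hRb, hRa⟩, ⟨LinearMap.id - R, hcompl R hR, ?_, ?_⟩⟩
      · simp [hRa]
      · simp [hRb]
  have hbA : b ∈ A := (hmax hins (Set.subset_insert b A)) (Set.mem_insert b A)
  have := hkill ⟨b, hbA⟩
  rw [show R ((⟨b, hbA⟩ : A) : E) = R b from rfl, hRb] at this
  rw [this, norm_zero] at hbn
  exact zero_ne_one hbn

end Helper59.Rotation
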