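import Mathlib

/-!
# L^p-projections on real normed spaces

Elementary calculus with the function `D x w = ‖x + w‖ ^ p - ‖x - w‖ ^ p`.
-/

namespace Helper59.Rotation

section elim

variable {E : Type*} [AddCommGroup E] [Module ℝ E]

/-- Elimination in the four-term functional equation. -/
theorem third_difference (ψ : E → ℝ) (B : E →ₗ[ℝ] E)
    (H0 : ∀ y w, ψ (B y + w) - ψ (B y - w) - ψ (y + B w) + ψ (y - B w) = 0)
    (h k k' x : E) :
    (((ψ (x + (2 : ℝ) • B h + (k - B (B k)) + (k' + B (B k')))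
      - ψ (x + (k - B (B k)) + (k' + B (B k'))))
      - (ψ (x + (2 : ℝ) • B h + (k' + B (B k'))) - ψ (x + (k' + B (B k')))))
      - ((ψ (x + (2 : ℝ) • B h + (k - B (B k)))
      - ψ (x + (k - B (B k))))
      - (ψ (x + (2 : ℝ) • B h) - ψ x))) = 0 := by
  -- step 1
  have H1 : ∀ y w h, (ψ (B y + w + (2 : ℝ) • B h) - ψ (B y + w))
      - (ψ (y + B w + (h + B (B h))) - ψ (y + B w))
      + (ψ (y - B w + (h - B (B h))) - ψ (y - B w)) = 0 := by
    intro y w h
    have h0 := H0 y w
    have h1 := H0 (y + h) (w + B h)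
    have e1 : B (y + h) + (w + B h) = B y + w + (2 : ℝ) • B h := by
      rw [map_add]; module
    have e2 : B (y + h) - (w + B h) = B y - w := by
      rw [map_add]; module
    have e3 : y + h + B (w + B h) = y + B w + (h + B (B h)) := by
      rw [map_add]; module
    have e4 : y + h - B (w + B h) = y - B w + (h - B (B h)) := by
      rw [map_add]; module
    rw [e1, e2, e3, e4] at h1
    linarith
  -- step 2
  have H2 : ∀ y w h k, ((ψ (B y + w + (2 : ℝ) • B h + (k - B (B k)))
      - ψ (B y + w + (k - B (B k))))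
      - (ψ (B y + w + (2 : ℝ) • B h) - ψ (B y + w)))
      + ((ψ (y - B w + (h - B (B h)) - (2 : ℝ) • B k) - ψ (y - B w - (2 : ℝ) • B k))
      - (ψ (y - B w + (h - B (B h))) - ψ (y - B w))) = 0 := by
    intro y w h k
    have h0 := H1 y w h
    have h1 := H1 (y - B k) (w + k) h
    have e1 : B (y - B k) + (w + k) + (2 : ℝ) • B h
        = B y + w + (2 : ℝ) • B h + (k - B (B k)) := by
      rw [map_sub]; module
    have e1' : B (y - B k) + (w + k) = B y + w + (k - B (B k)) := by
      rw [map_sub]; module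
    have e2 : y - B k + B (w + k) + (h + B (B h)) = y + B w + (h + B (B h)) := by
      rw [map_add]; module
    have e2' : y - B k + B (w + k) = y + B w := by
      rw [map_add]; module
    have e3 : y - B k - B (w + k) + (h - B (B h))
        = y - B w + (h - B (B h)) - (2 : ℝ) • B k := by
      rw [map_add]; module
    have e3' : y - B k - B (w + k) = y - B w - (2 : ℝ) • B k := by
      rw [map_add]; module
    rw [e1, e2, e3, e1', e2', e3'] at h1
    linarith
  -- step 3
  have h0 := H2 0 x h k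
  have h1 := H2 (B k') (x + k') h k
  have a1 : B (0 : E) + x = x := by simp
  have b1 : B (B k') + (x + k') + (2 : ℝ) • B h + (k - B (B k))
      = x + (2 : ℝ) • B h + (k - B (B k)) + (k' + B (B k')) := by module
  have b2 : B (B k') + (x + k') + (k - B (B k))
      = x + (k - B (B k)) + (k' + B (B k')) := by module
  have b3 : B (B k') + (x + k') + (2 : ℝ) • B h
      = x + (2 : ℝ) • B h + (k' + B (B k')) := by module
  have b4 : B (B k') + (x + k') = x + (k' + B (B k')) := by module
  have c1 : B k' - B (x + k') = 0 - B x := by rw [map_add]; module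
  rw [b1, b2, b3, b4, c1] at h1
  rw [a1] at h0
  linarith

end elim

section lp

variable {E : Type*} [NormedAddCommGroup E] [NormedSpace ℝ E]

/-- `P` is an `L^p`-projection of `E`: a linear idempotent with
`‖x‖ ^ p = ‖P x‖ ^ p + ‖x - P x‖ ^ p` for all `x`. -/
structure IsLpProj (p : ℝ) (P : E →ₗ[ℝ] E) : Prop where
  idem : ∀ x, P (P x) = P x
  norm_rpow : ∀ x, ‖x‖ ^ p = ‖P x‖ ^ p + ‖x - P x‖ ^ p

/-- the bracket `‖x + w‖ ^ p - ‖x - w‖ ^ p` -/
noncomputable def D (p : ℝ) (x w : E) : ℝ := ‖x + w‖ ^ p - ‖x - w‖ ^ p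

omit [NormedSpace ℝ E] in
theorem D_comm (p : ℝ) (x w : E) : D p x w = D p w x := by
  unfold D
  rw [add_comm, norm_sub_rev]

omit [NormedSpace ℝ E] in
theorem D_neg_left (p : ℝ) (x w : E) : D p (-x) w = - D p x w := by
  unfold D
  have h1 : ‖-x + w‖ = ‖x - w‖ := by
    rw [← norm_neg]; congr 1; abel
  have h2 : ‖-x - w‖ = ‖x + w‖ := by
    rw [← norm_neg]; congr 1; abel
  rw [h1, h2]; ring

omit [NormedSpace ℝ E] in
theorem D_zero_left (p : ℝ) (w : E) : D p 0 w = 0 := by
  unfold D; simp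

theorem D_self {p : ℝ} (hp : 0 < p) (x : E) : D p x x = 2 ^ p * ‖x‖ ^ p := by
  unfold D
  have h1 : x + x = (2 : ℝ) • x := by module
  rw [sub_self, norm_zero, Real.zero_rpow hp.ne', h1, norm_smul, Real.norm_eq_abs,
    abs_of_pos (by norm_num : (0:ℝ) < 2), Real.mul_rpow (by norm_num) (norm_nonneg _)]
  ring

variable {p : ℝ} {P Q : E →ₗ[ℝ] E}

theorem IsLpProj.compl (hP : IsLpProj p P) : IsLpProj p (LinearMap.id - P) := by
  refine ⟨fun x => ?_, fun x => ?_⟩
  · simp [hP.idem]
  · have := hP.norm_rpow x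
    simp only [LinearMap.sub_apply, LinearMap.id_apply, sub_sub_cancel]
    linarith

theorem IsLpProj.D_split (hP : IsLpProj p P) (x w : E) :
    D p x w = D p (P x) (P w) + D p (x - P x) (w - P w) := by
  unfold D
  rw [hP.norm_rpow (x + w), hP.norm_rpow (x - w), map_add, map_sub]
  have e1 : x + w - (P x + P w) = x - P x + (w - P w) := by abel
  have e2 : x - w - (P x - P w) = x - P x - (w - P w) := by abel
  rw [e1, e2]; ring

theorem IsLpProj.D_left (hP : IsLpProj p P) (x w : E) :
    D p (P x) w = D p (P x) (P w) := by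
  rw [hP.D_split (P x) w, hP.idem, sub_self, D_zero_left, add_zero]

theorem IsLpProj.D_symm (hP : IsLpProj p P) (x w : E) :
    D p (P x) w = D p x (P w) := by
  rw [hP.D_left x w, D_comm p x (P w), hP.D_left w x, D_comm]

/-- if the range of `P Q P (1 - P Q P)` is zero then `(1 - P) Q P = 0` -/
theorem offdiag_zero (hp : 0 < p) (hP : IsLpProj p P) (hQ : IsLpProj p Q)
    (hB : ∀ v, P (Q (P v)) - P (Q (P (P (Q (P v))))) = 0) (y : E) :
    Q (P y) - P (Q (P y)) = 0 := by
  set u := Q (P y) - P (Q (P y)) with hu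
  have hPu : P u = 0 := by rw [hu, map_sub, hP.idem, sub_self]
  have hPQu : P (Q u) = 0 := by
    have := hB y
    rw [hP.idem] at this
    rw [hu, map_sub, map_sub, hQ.idem]
    exact this
  have h1 : D p (Q (P y)) u = 0 := by
    rw [hQ.D_symm, hP.D_symm, hPQu, D_comm, D_zero_left]
  have h2 : D p (Q (P y)) u = D p u u := by
    rw [hP.D_split (Q (P y)) u, hPu, sub_zero, D_comm p (P _) 0, D_zero_left, zero_add]
  rw [h1, D_self hp] at h2
  have h3 : ‖u‖ ^ p = 0 := by
    have : (2 : ℝ) ^ p ≠ 0 := (Real.rpow_pos_of_pos (by norm_num) p).ne'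
    rcases mul_eq_zero.mp h2.symm with h | h
    · exact absurd h this
    · exact h
  have h4 : ‖u‖ = 0 := (Real.rpow_eq_zero (norm_nonneg _) hp.ne').mp h3
  exact norm_eq_zero.mp h4

/-- the compression `P Q P` -/
def comp (P Q : E →ₗ[ℝ] E) : E →ₗ[ℝ] E := P ∘ₗ Q ∘ₗ P

theorem comp_apply (P Q : E →ₗ[ℝ] E) (x : E) : comp P Q x = P (Q (P x)) := rfl

theorem comp_symm (hP : IsLpProj p P) (hQ : IsLpProj p Q) (x w : E) :
    D p (comp P Q x) w = D p x (comp P Q w) := by
  rw [comp_apply, comp_apply, hP.D_symm, hQ.D_symm, hP.D_symm]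

theorem comp_nonneg (hp : 0 < p) (hP : IsLpProj p P) (hQ : IsLpProj p Q) (x : E) :
    0 ≤ D p (comp P Q x) x := by
  rw [comp_apply, hP.D_symm, hQ.D_left, D_self hp]
  positivity

theorem D_self_nonneg (hp : 0 < p) (x : E) : 0 ≤ D p x x := by
  rw [D_self hp]; positivity

theorem D_self_eq_zero (hp : 0 < p) {x : E} (h : D p x x = 0) : x = 0 := by
  rw [D_self hp] at h
  have h3 : ‖x‖ ^ p = 0 := by
    have : (2 : ℝ) ^ p ≠ 0 := (Real.rpow_pos_of_pos (by norm_num) p).ne'
    rcases mul_eq_zero.mp h with h | h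
    · exact absurd h this
    · exact h
  have h4 : ‖x‖ = 0 := (Real.rpow_eq_zero (norm_nonneg _) hp.ne').mp h3
  exact norm_eq_zero.mp h4

/-- third differences vanish in all directions of the range of `B (1 - B ^ 4)`, `B = P Q P` -/
theorem third_diff_comp (hP : IsLpProj p P) (hQ : IsLpProj p Q) (v x : E) :
    let B := comp P Q
    let r := B (v - B (B (B (B v))))
    ‖x + (3 : ℝ) • r‖ ^ p - 3 * ‖x + (2 : ℝ) • r‖ ^ p + 3 * ‖x + r‖ ^ p - ‖x‖ ^ p = 0 := by
  intro B r
  have H0 : ∀ y w : E, ‖B y + w‖ ^ p - ‖B y - w‖ ^ p - ‖y + B w‖ ^ p + ‖y - B w‖ ^ p = 0 := by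
    intro y w
    have := comp_symm hP hQ y w
    unfold D at this
    linarith
  have key := third_difference (fun z : E => ‖z‖ ^ p) B H0
    ((1 / 2 : ℝ) • (v - B (B (B (B v))))) (B (v + B (B v))) (B (v - B (B v))) x
  have e1 : (2 : ℝ) • B ((1 / 2 : ℝ) • (v - B (B (B (B v))))) = r := by
    rw [map_smul, smul_smul]; norm_num [r]
  have e2 : B (v + B (B v)) - B (B (B (v + B (B v)))) = r := by
    simp only [r, map_add, map_sub]; abel
  have e3 : B (v - B (B v)) + B (B (B (v - B (B v)))) = r := by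
    simp only [r, map_sub]; abel
  rw [e1, e2, e3] at key
  have f1 : x + r + r + r = x + (3 : ℝ) • r := by module
  have f2 : x + r + r = x + (2 : ℝ) • r := by module
  rw [f1, f2] at key
  linarith

/-- if all the directions of `third_diff_comp` vanish then `B (1 - B) = 0` -/
theorem comp_idem_of_zero (hp : 0 < p) (hP : IsLpProj p P) (hQ : IsLpProj p Q)
    (h : ∀ v, comp P Q (v - comp P Q (comp P Q (comp P Q (comp P Q v)))) = 0) (v : E) :
    comp P Q v - comp P Q (comp P Q v) = 0 := by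
  set B := comp P Q with hBdef
  set a := B v - B (B v) with ha
  set b := a + B (B a) with hb
  have hc : b + B b = 0 := by
    have := h v
    rw [hb, ha]
    simp only [map_add, map_sub] at this ⊢
    rw [← this]; abel
  have hb0 : b = 0 := by
    have h1 : B b = -b := by
      rw [eq_neg_iff_add_eq_zero, add_comm]; exact hc
    have h2 := comp_nonneg hp hP hQ b
    rw [← hBdef, h1, D_neg_left] at h2
    have h3 := D_self_nonneg hp b
    exact D_self_eq_zero hp (by linarith)
  have h1 : B (B a) = -a := by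
    rw [eq_neg_iff_add_eq_zero, add_comm]; exact hb0
  have h2 : 0 ≤ D p (B (B a)) a := by
    rw [comp_symm hP hQ]
    exact D_self_nonneg hp _
  rw [h1, D_neg_left] at h2
  have h3 := D_self_nonneg hp a
  exact D_self_eq_zero hp (by linarith)

/-- Two non-commuting `L^p`-projections produce a line along all translates of which
`‖·‖ ^ p` has vanishing third differences. -/
theorem exists_cubic (hp : 0 < p) (hP : IsLpProj p P) (hQ : IsLpProj p Q)
    (hne : ∃ x, P (Q x) ≠ Q (P x)) :
    ∃ r : E, r ≠ 0 ∧ ∀ (t : ℝ) (x : E),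
      ‖x + (3 : ℝ) • t • r‖ ^ p - 3 * ‖x + (2 : ℝ) • t • r‖ ^ p + 3 * ‖x + t • r‖ ^ p
        - ‖x‖ ^ p = 0 := by
  by_contra hcon
  push Not at hcon
  have main : ∀ P' : E →ₗ[ℝ] E, IsLpProj p P' → ∀ y, Q (P' y) - P' (Q (P' y)) = 0 := by
    intro P' hP'
    have hz : ∀ v, comp P' Q (v - comp P' Q (comp P' Q (comp P' Q (comp P' Q v)))) = 0 := by
      intro v
      by_contra hr
      obtain ⟨t, x, htx⟩ := hcon _ hr
      apply htx
      have := third_diff_comp hP' hQ (t • v) x
      simp only [map_smul] at this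
      rw [← smul_sub, map_smul] at this
      exact this
    exact offdiag_zero hp hP' hQ (fun v => comp_idem_of_zero hp hP' hQ hz v)
  obtain ⟨x, hx⟩ := hne
  apply hx
  have h1 := main P hP x
  have h2 := main _ hP.compl x
  simp only [LinearMap.sub_apply, LinearMap.id_apply, map_sub] at h2
  -- h1 : Q (P x) = P (Q (P x)); h2 : P (Q x) - P (Q (P x)) = 0
  have h3 := sub_eq_zero.mp h1
  have h4 : P (Q x) - P (Q (P x)) = 0 := by
    rw [← h2]; abel
  rw [h3]
  exact sub_eq_zero.mp h4

/-- for `p ≠ 2` two `L^p`-projections commute -/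
theorem commute_of_ne_two (hp : 0 < p) (hp2 : p ≠ 2) (hP : IsLpProj p P) (hQ : IsLpProj p Q)
    (x : E) : P (Q x) = Q (P x) := by
  by_contra hne
  obtain ⟨r, hr, h⟩ := exists_cubic hp hP hQ ⟨x, hne⟩
  have h1 := h 1 (-r)
  simp only [one_smul] at h1
  have e1 : -r + (3 : ℝ) • r = (2 : ℝ) • r := by module
  have e2 : -r + (2 : ℝ) • r = r := by module
  rw [e1, e2, neg_add_cancel, norm_neg, norm_smul, norm_zero, Real.zero_rpow hp.ne',
    Real.norm_eq_abs, abs_of_pos (by norm_num : (0:ℝ) < 2),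
    Real.mul_rpow (by norm_num) (norm_nonneg _)] at h1
  have hrp : 0 < ‖r‖ ^ p := Real.rpow_pos_of_pos (norm_pos_iff.mpr hr) p
  have h2 : ((2 : ℝ) ^ p - 2 ^ (2 : ℝ)) * ‖r‖ ^ p = 0 := by
    have : (2 : ℝ) ^ (2 : ℝ) = 4 := by
      rw [show (2 : ℝ) = ((2 : ℕ) : ℝ) by norm_num, Real.rpow_natCast]; norm_num
    rw [this]; linarith
  have h3 : (2 : ℝ) ^ p = 2 ^ (2 : ℝ) := by
    rcases mul_eq_zero.mp h2 with h | h
    · linarith
    · exact absurd h hrp.ne'
  apply hp2
  exact (Real.strictMono_rpow_of_base_gt_one (by norm_num : (1:ℝ) < 2)).injective h3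

end lp

end Helper59.Rotation
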