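import Pool.Agent.Helper59.Rotation.Bool

/-!
# L^p-projections on separable spaces with transitive norm
-/

open Filter Topology

universe u

namespace Helper59.Rotation

variable {E : Type u} [NormedAddCommGroup E] [NormedSpace ℝ E]

/-- on a separable space with transitive norm, a bicontractive projection does not commute with all
its conjugates -/
theorem exists_noncommuting_conj [CompleteSpace E] [TopologicalSpace.SeparableSpace E]
    (htrans : ∀ x y : E, ‖x‖ = 1 → ‖y‖ = 1 → ∃ T : E ≃ₗᵢ[ℝ] E, T x = y)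
    (P : E →ₗ[ℝ] E) (hP : ∀ x, P (P x) = P x) (hP0 : ∃ x, P x ≠ 0) (hP1 : ∃ x, P x ≠ x)
    (hc : ∀ x, ‖P x‖ ≤ ‖x‖) (hc' : ∀ x, ‖x - P x‖ ≤ ‖x‖) :
    ∃ T : E ≃ₗᵢ[ℝ] E, ∃ x, P (T (P (T.symm x))) ≠ T (P (T.symm (P x))) := by
  by_contra hcon
  push Not at hcon
  set 𝔓 : Set (E →ₗ[ℝ] E) := {R | ∃ T : E ≃ₗᵢ[ℝ] E,
    (∀ x, R x = T (P (T.symm x))) ∨ (∀ x, R x = x - T (P (T.symm x)))} with h𝔓
  -- two conjugates commute
  have hTS : ∀ (T S : E ≃ₗᵢ[ℝ] E) (x : E),
      T (P (T.symm (S (P (S.symm x))))) = S (P (S.symm (T (P (T.symm x))))) := by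
    intro T S x
    have := hcon (S.trans T.symm) (T.symm x)
    simp only [LinearIsometryEquiv.symm_trans, LinearIsometryEquiv.symm_symm,
      LinearIsometryEquiv.trans_apply, LinearIsometryEquiv.apply_symm_apply] at this
    rw [this]
    simp
  have hidem : ∀ R ∈ 𝔓, ∀ x, R (R x) = R x := by
    rintro R ⟨T, h | h⟩ x
    · rw [h (R x), h x]; simp [hP]
    · rw [h (R x), h x]; simp [hP]
  have hcontr : ∀ R ∈ 𝔓, ∀ x, ‖R x‖ ≤ ‖x‖ := by
    rintro R ⟨T, h | h⟩ x
    · rw [h x, T.norm_map]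
      exact (hc _).trans (T.symm.norm_map x).le
    · have h1 : x - T (P (T.symm x)) = T (T.symm x - P (T.symm x)) := by simp
      rw [h x, h1, T.norm_map]
      exact (hc' _).trans (T.symm.norm_map x).le
  have hcompl : ∀ R ∈ 𝔓, LinearMap.id - R ∈ 𝔓 := by
    rintro R ⟨T, h | h⟩
    · exact ⟨T, Or.inr fun x => by simp [h x]⟩
    · exact ⟨T, Or.inl fun x => by simp [h x]⟩
  have hcomm : ∀ R ∈ 𝔓, ∀ S ∈ 𝔓, ∀ x, R (S x) = S (R x) := by
    rintro R ⟨T, h | h⟩ S ⟨T', h' | h'⟩ x
    · rw [h (S x), h' x, h' (R x), h x, hTS T T' x]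
    · rw [h (S x), h' x, h' (R x), h x, map_sub, map_sub, map_sub, hTS T T' x]
    · rw [h (S x), h' x, h' (R x), h x, map_sub, map_sub, map_sub, hTS T T' x]
    · rw [h (S x), h' x, h' (R x), h x]
      simp only [map_sub]
      rw [hTS T T' x]
      abel
  obtain ⟨x, hx⟩ := exists_separating 𝔓 hidem hcontr hcompl hcomm
  obtain ⟨v, hv⟩ := hP0
  obtain ⟨z₀, hz₀⟩ := hP1
  set z := z₀ - P z₀ with hz
  have hz0 : z ≠ 0 := sub_ne_zero.mpr (Ne.symm hz₀)
  have hPz : P z = 0 := by rw [hz, map_sub, hP, sub_self]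
  by_cases hx0 : x = 0
  · have hmem : P ∈ 𝔓 := ⟨LinearIsometryEquiv.refl ℝ E, Or.inl fun x => rfl⟩
    exact hv (hx P hmem (by rw [hx0, map_zero]) v)
  · have hxn : ‖x‖ ≠ 0 := norm_ne_zero_iff.mpr hx0
    have hzn : ‖z‖ ≠ 0 := norm_ne_zero_iff.mpr hz0
    obtain ⟨T, hT⟩ := htrans (‖z‖⁻¹ • z) (‖x‖⁻¹ • x)
      (by rw [norm_smul, norm_inv, norm_norm, inv_mul_cancel₀ hzn])
      (by rw [norm_smul, norm_inv, norm_norm, inv_mul_cancel₀ hxn])
    have hTx : T.symm x = ‖x‖ • ‖z‖⁻¹ • z := by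
      have h1 : x = ‖x‖ • T (‖z‖⁻¹ • z) := by
        rw [hT, smul_smul, mul_inv_cancel₀ hxn, one_smul]
      rw [← map_smul] at h1
      have h2 := congrArg T.symm h1
      rwa [T.symm_apply_apply] at h2
    set R : E →ₗ[ℝ] E := T.toLinearEquiv.toLinearMap ∘ₗ P ∘ₗ T.symm.toLinearEquiv.toLinearMap
      with hR
    have hRapp : ∀ y, R y = T (P (T.symm y)) := fun y => rfl
    have hmem : R ∈ 𝔓 := ⟨T, Or.inl hRapp⟩
    have hRx : R x = 0 := by
      rw [hRapp, hTx]; simp [hPz]
    have := hx R hmem hRx (T v)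
    rw [hRapp, T.symm_apply_apply] at this
    exact hv ((map_eq_zero_iff T T.injective).mp this)

/-- `M`-projections commute -/
theorem commute_of_max {P Q : E →ₗ[ℝ] E} (hP : ∀ x, P (P x) = P x)
    (hPm : ∀ x, ‖x‖ = max ‖P x‖ ‖x - P x‖) (hQ : ∀ x, Q (Q x) = Q x)
    (hQm : ∀ x, ‖x‖ = max ‖Q x‖ ‖x - Q x‖) (x : E) : P (Q x) = Q (P x) := by
  -- the adjoint is an `L`-projection
  have main : ∀ R : E →ₗ[ℝ] E, (∀ x, R (R x) = R x) → (∀ x, ‖x‖ = max ‖R x‖ ‖x - R x‖) →
      ∃ R' : StrongDual ℝ E →ₗ[ℝ] StrongDual ℝ E, IsLpProj 1 R' ∧ ∀ f x, R' f x = f (R x) := by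
    intro R hR hRm
    have hRc : ∀ x, ‖R x‖ ≤ 1 * ‖x‖ := fun x => by
      rw [one_mul, hRm x]; exact le_max_left _ _
    set Rc : E →L[ℝ] E := R.mkContinuous 1 hRc with hRc'
    have hRcapp : ∀ x, Rc x = R x := fun x => rfl
    set R' : StrongDual ℝ E →ₗ[ℝ] StrongDual ℝ E :=
      { toFun := fun f => f.comp Rc
        map_add' := fun f g => by ext; simp
        map_smul' := fun c f => by ext; simp } with hR'
    have happ : ∀ f x, R' f x = f (R x) := fun f x => rfl
    refine ⟨R', ⟨?_, ?_⟩, happ⟩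
    · intro f; ext x; rw [happ, happ, hR]; rfl
    · intro f
      rw [Real.rpow_one, Real.rpow_one, Real.rpow_one]
      apply le_antisymm
      · have := norm_add_le (R' f) (f - R' f)
        simpa using this
      · -- choose almost norming vectors
        refine le_of_forall_pos_le_add fun ε hε => ?_
        have hnorming : ∀ g : StrongDual ℝ E, ∃ z : E, ‖z‖ ≤ 1 ∧ ‖g‖ - ε / 2 ≤ g z := by
          intro g
          by_contra hno
          push Not at hno
          have : ‖g‖ ≤ ‖g‖ - ε / 2 ∨ ‖g‖ - ε / 2 < 0 := by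
            by_cases hneg : ‖g‖ - ε / 2 < 0
            · exact Or.inr hneg
            · left
              push Not at hneg
              refine g.opNorm_le_bound hneg fun z => ?_
              by_cases hz : z = 0
              · rw [hz]; simp
              have hzn : ‖z‖ ≠ 0 := norm_ne_zero_iff.mpr hz
              have hzp : 0 < ‖z‖ := norm_pos_iff.mpr hz
              have h1 := hno (‖z‖⁻¹ • z) (by
                rw [norm_smul, norm_inv, norm_norm, inv_mul_cancel₀ hzn])
              have h2 := hno (-(‖z‖⁻¹ • z)) (by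
                rw [norm_neg, norm_smul, norm_inv, norm_norm, inv_mul_cancel₀ hzn])
              rw [map_smul, smul_eq_mul] at h1
              rw [map_neg, map_smul, smul_eq_mul] at h2
              rw [Real.norm_eq_abs]
              have h3 : |‖z‖⁻¹ * g z| ≤ ‖g‖ - ε / 2 := abs_le.mpr ⟨by linarith, by linarith⟩
              rw [abs_mul, abs_of_pos (inv_pos.mpr hzp)] at h3
              have h4 : |g z| = ‖z‖ * (‖z‖⁻¹ * |g z|) := by
                rw [← mul_assoc, mul_inv_cancel₀ hzn, one_mul]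
              rw [h4, mul_comm]
              exact mul_le_mul_of_nonneg_right h3 (norm_nonneg _)
          rcases this with h | h
          · linarith
          · have := hno 0 (by simp)
            rw [map_zero] at this
            linarith
        obtain ⟨y, hy1, hy2⟩ := hnorming (R' f)
        obtain ⟨z, hz1, hz2⟩ := hnorming (f - R' f)
        have hRz : R (R y + (z - R z)) = R y := by
          rw [map_add, hR, map_sub, hR, sub_self, add_zero]
        have h1 : ‖R y + (z - R z)‖ ≤ 1 := by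
          rw [hRm (R y + (z - R z)), hRz, add_sub_cancel_left]
          refine max_le ?_ ?_
          · refine le_trans ?_ hy1
            rw [hRm y]; exact le_max_left _ _
          · refine le_trans ?_ hz1
            rw [hRm z]; exact le_max_right _ _
        have h2 : f (R y + (z - R z)) = R' f y + (f - R' f) z := by
          rw [happ, sub_apply, happ]; simp
        have h3 : f (R y + (z - R z)) ≤ ‖f‖ := by
          refine (le_abs_self _).trans ?_
          rw [← Real.norm_eq_abs]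
          refine (f.le_opNorm _).trans ?_
          exact mul_le_of_le_one_right (norm_nonneg _) h1
        linarith
  obtain ⟨P', hP', hP'a⟩ := main P hP hPm
  obtain ⟨Q', hQ', hQ'a⟩ := main Q hQ hQm
  have hcomm := commute_of_ne_two one_pos (by norm_num) hP' hQ'
  by_contra hne
  obtain ⟨f, hf⟩ := SeparatingDual.exists_ne_zero (R := ℝ) (sub_ne_zero.mpr hne)
  apply hf
  have h1 := congrArg (fun g : StrongDual ℝ E => g x) (hcomm f)
  simp only [hP'a, hQ'a] at h1
  rw [map_sub, h1, sub_self]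

end Helper59.Rotation
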