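import Pool.Agent.Helper59.Rotation.Core

/-!
# Parallelogram vectors
-/

open Filter Topology

universe u

namespace Helper59.Rotation

variable {E : Type*} [NormedAddCommGroup E] [NormedSpace ℝ E]

/-- `r` satisfies the parallelogram law with every vector -/
def Par (r : E) : Prop := ∀ x : E, ‖x + r‖ ^ 2 + ‖x - r‖ ^ 2 = 2 * ‖x‖ ^ 2 + 2 * ‖r‖ ^ 2

/-- sequences with constant second difference -/
theorem quad_seq (f : ℕ → ℝ) (c : ℝ) (h : ∀ n, f (n + 2) - 2 * f (n + 1) + f n = c) (n : ℕ) :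
    f n = f 0 + n * (f 1 - f 0) + n * (n - 1) / 2 * c := by
  have key : ∀ n : ℕ, f n = f 0 + n * (f 1 - f 0) + n * (n - 1) / 2 * c ∧
      f (n + 1) = f 0 + (n + 1) * (f 1 - f 0) + (n + 1) * n / 2 * c := by
    intro n
    induction n with
    | zero => simp
    | succ n ih =>
      obtain ⟨h1, h2⟩ := ih
      refine ⟨?_, ?_⟩
      · rw [h2]; push_cast; ring
      · have h3 := h n
        have h4 : f (n + 1 + 1) = c + 2 * f (n + 1) - f n := by
          have : f (n + 1 + 1) = f (n + 2) := rfl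
          rw [this]; linarith
        rw [h4, h2, h1]; push_cast; ring
  exact (key n).1

/-- an affine bound on `a n ^ 2` forces `a = 0` -/
theorem eq_zero_of_growth {a K : ℝ} (h : ∀ n : ℕ, 1 ≤ n → |a| * (n : ℝ) ^ 2 ≤ K * n) : a = 0 := by
  by_contra ha
  have ha' : 0 < |a| := abs_pos.mpr ha
  obtain ⟨n, hn⟩ := exists_nat_gt (K / |a|)
  have hn1 : 1 ≤ n + 1 := by omega
  have h1 := h (n + 1) hn1
  have h2 : (0 : ℝ) < ((n + 1 : ℕ) : ℝ) := by positivity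
  have h3 : |a| * ((n + 1 : ℕ) : ℝ) ≤ K := by
    by_contra hlt
    push Not at hlt
    nlinarith
  rw [div_lt_iff₀ ha'] at hn
  push_cast at h3
  nlinarith

/-- vanishing third differences imply the parallelogram law -/
theorem par_of_third {r : E}
    (h : ∀ x : E, ‖x + (3 : ℝ) • r‖ ^ 2 - 3 * ‖x + (2 : ℝ) • r‖ ^ 2 + 3 * ‖x + r‖ ^ 2
      - ‖x‖ ^ 2 = 0) : Par r := by
  -- second differences are constant along the line and equal to `2 ‖r‖ ^ 2`
  have hsec : ∀ x : E, ‖x + (2 : ℝ) • r‖ ^ 2 - 2 * ‖x + r‖ ^ 2 + ‖x‖ ^ 2 = 2 * ‖r‖ ^ 2 := by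
    intro x
    set f : ℕ → ℝ := fun n => ‖x + (n : ℝ) • r‖ ^ 2 with hf
    set c : ℝ := f 2 - 2 * f 1 + f 0 with hc
    have h3 : ∀ n, f (n + 3) - 3 * f (n + 2) + 3 * f (n + 1) - f n = 0 := by
      intro n
      have := h (x + (n : ℝ) • r)
      simp only [hf]
      have e3 : x + (n : ℝ) • r + (3 : ℝ) • r = x + ((n + 3 : ℕ) : ℝ) • r := by
        push_cast; module
      have e2 : x + (n : ℝ) • r + (2 : ℝ) • r = x + ((n + 2 : ℕ) : ℝ) • r := by
        push_cast; module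
      have e1 : x + (n : ℝ) • r + r = x + ((n + 1 : ℕ) : ℝ) • r := by
        push_cast; module
      rw [e3, e2, e1] at this
      exact this
    have hcst : ∀ n, f (n + 2) - 2 * f (n + 1) + f n = c := by
      intro n
      induction n with
      | zero => simp [hc]
      | succ n ih =>
        have := h3 n
        have e1 : f (n + 1 + 2) = f (n + 3) := rfl
        have e2 : f (n + 1 + 1) = f (n + 2) := rfl
        rw [e1, e2]; linarith
    have hq := quad_seq f c hcst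
    -- growth
    have hg : ∀ n : ℕ, |f n - (n : ℝ) ^ 2 * ‖r‖ ^ 2| ≤ ‖x‖ * (2 * n * ‖r‖ + ‖x‖) := by
      intro n
      have hn : ‖(n : ℝ) • r‖ = n * ‖r‖ := by
        rw [norm_smul, Real.norm_eq_abs, abs_of_nonneg (Nat.cast_nonneg n)]
      have h1 : ‖x + (n : ℝ) • r‖ ≤ ‖x‖ + n * ‖r‖ := by
        rw [← hn]; exact norm_add_le _ _
      have h2 : n * ‖r‖ - ‖x‖ ≤ ‖x + (n : ℝ) • r‖ := by
        rw [← hn]
        have := norm_sub_norm_le ((n : ℝ) • r) (-x)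
        rw [norm_neg, sub_neg_eq_add, add_comm ((n : ℝ) • r)] at this
        exact this
      have h4 : 0 ≤ ‖x + (n : ℝ) • r‖ := norm_nonneg _
      have h5 : 0 ≤ ‖x‖ := norm_nonneg _
      have h6 : 0 ≤ n * ‖r‖ := by positivity
      rw [abs_le]
      simp only [hf]
      constructor
      · rcases le_or_gt (n * ‖r‖) ‖x‖ with h7 | h7
        · nlinarith
        · nlinarith
      · nlinarith
    have h0 : f 0 = ‖x‖ ^ 2 := by simp [hf]
    have hcv : c / 2 - ‖r‖ ^ 2 = 0 := by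
      apply eq_zero_of_growth (K := |f 1 - f 0 - c / 2| + |f 0| + ‖x‖ * (2 * ‖r‖ + ‖x‖))
      intro n hn
      have hn' : (1 : ℝ) ≤ n := by exact_mod_cast hn
      have h1 := hg n
      rw [hq n] at h1
      have e : (c / 2 - ‖r‖ ^ 2) * (n : ℝ) ^ 2 = (f 0 + n * (f 1 - f 0) + n * (n - 1) / 2 * c
          - (n : ℝ) ^ 2 * ‖r‖ ^ 2) - (f 1 - f 0 - c / 2) * n - f 0 := by ring
      have h2 : |c / 2 - ‖r‖ ^ 2| * (n : ℝ) ^ 2 = |(c / 2 - ‖r‖ ^ 2) * (n : ℝ) ^ 2| := by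
        rw [abs_mul, abs_of_nonneg (by positivity : (0:ℝ) ≤ (n : ℝ) ^ 2)]
      rw [h2, e]
      calc |(f 0 + n * (f 1 - f 0) + n * (n - 1) / 2 * c - (n : ℝ) ^ 2 * ‖r‖ ^ 2)
            - (f 1 - f 0 - c / 2) * n - f 0|
          ≤ |(f 0 + n * (f 1 - f 0) + n * (n - 1) / 2 * c - (n : ℝ) ^ 2 * ‖r‖ ^ 2)
            - (f 1 - f 0 - c / 2) * n| + |f 0| := abs_sub _ _
        _ ≤ |f 0 + n * (f 1 - f 0) + n * (n - 1) / 2 * c - (n : ℝ) ^ 2 * ‖r‖ ^ 2|
            + |(f 1 - f 0 - c / 2) * n| + |f 0| := by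
              gcongr; exact abs_sub _ _
        _ ≤ ‖x‖ * (2 * n * ‖r‖ + ‖x‖) + |f 1 - f 0 - c / 2| * n + |f 0| := by
              rw [abs_mul (f 1 - f 0 - c / 2), abs_of_nonneg (Nat.cast_nonneg n : (0:ℝ) ≤ n)]
              gcongr
        _ ≤ (|f 1 - f 0 - c / 2| + |f 0| + ‖x‖ * (2 * ‖r‖ + ‖x‖)) * n := by
              have h5 : 0 ≤ ‖x‖ := norm_nonneg _
              have h6 : 0 ≤ |f 0| := abs_nonneg _
              have h7 : 0 ≤ ‖r‖ := norm_nonneg _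
              nlinarith [mul_nonneg h5 h5, mul_nonneg (mul_nonneg h5 h5) (sub_nonneg.mpr hn'),
                mul_nonneg h6 (sub_nonneg.mpr hn')]
    have h2f : f 2 = ‖x + (2 : ℝ) • r‖ ^ 2 := by simp [hf]
    have h1f : f 1 = ‖x + r‖ ^ 2 := by simp [hf]
    have : c = 2 * ‖r‖ ^ 2 := by linarith
    rw [hc, h2f, h1f, h0] at this
    exact this
  intro x
  have := hsec (x - r)
  have e1 : x - r + (2 : ℝ) • r = x + r := by module
  rw [e1, sub_add_cancel] at this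
  linarith

omit [NormedSpace ℝ E] in
theorem Par.neg {r : E} (h : Par r) : Par (-r) := by
  intro x
  have := h x
  rw [norm_neg, sub_neg_eq_add, ← sub_eq_add_neg]
  linarith

/-- along a parallelogram vector the square of the norm is a quadratic polynomial -/
theorem Par.formula {r : E} (h : Par r) (x : E) (n : ℕ) :
    ‖x + (n : ℝ) • r‖ ^ 2 = ‖x‖ ^ 2 + n * ((‖x + r‖ ^ 2 - ‖x - r‖ ^ 2) / 2) + n ^ 2 * ‖r‖ ^ 2 := by
  have hq := quad_seq (fun n : ℕ => ‖x + (n : ℝ) • r‖ ^ 2) (2 * ‖r‖ ^ 2) (by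
    intro n
    have := h (x + ((n + 1 : ℕ) : ℝ) • r)
    have e1 : x + ((n + 1 : ℕ) : ℝ) • r + r = x + ((n + 2 : ℕ) : ℝ) • r := by
      push_cast; module
    have e2 : x + ((n + 1 : ℕ) : ℝ) • r - r = x + ((n : ℕ) : ℝ) • r := by
      push_cast; module
    rw [e1, e2] at this
    linarith) n
  have h0 : ‖x + ((0 : ℕ) : ℝ) • r‖ ^ 2 = ‖x‖ ^ 2 := by simp
  have h1 : ‖x + ((1 : ℕ) : ℝ) • r‖ ^ 2 = ‖x + r‖ ^ 2 := by simp
  simp only [h0, h1] at hq
  rw [hq]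
  have := h x
  linear_combination ((n : ℝ) / 2) * this

/-- the bracket is additive against parallelogram vectors -/
theorem Par.add_left {r : E} (h : Par r) (x y : E) :
    ‖x + y + r‖ ^ 2 - ‖x + y - r‖ ^ 2
      = (‖x + r‖ ^ 2 - ‖x - r‖ ^ 2) + (‖y + r‖ ^ 2 - ‖y - r‖ ^ 2) := by
  have sub : ∀ x y : E, ‖x + y + r‖ ^ 2 - ‖x + y - r‖ ^ 2
      ≤ (‖x + r‖ ^ 2 - ‖x - r‖ ^ 2) + (‖y + r‖ ^ 2 - ‖y - r‖ ^ 2) := by
    intro x y
    by_contra hlt
    push Not at hlt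
    set δ := (‖x + y + r‖ ^ 2 - ‖x + y - r‖ ^ 2)
      - ((‖x + r‖ ^ 2 - ‖x - r‖ ^ 2) + (‖y + r‖ ^ 2 - ‖y - r‖ ^ 2)) with hδ
    have hδ0 : 0 < δ := by rw [hδ]; linarith
    obtain ⟨n, hn⟩ := exists_nat_gt ((2 * ‖x‖ ^ 2 + 2 * ‖y‖ ^ 2) / δ)
    rw [div_lt_iff₀ hδ0] at hn
    have h1 := h.formula x n
    have h2 := h.formula y n
    have h3 := h.formula (x + y) (2 * n)
    have h4 : ‖x + y + ((2 * n : ℕ) : ℝ) • r‖ ^ 2
        ≤ 2 * ‖x + (n : ℝ) • r‖ ^ 2 + 2 * ‖y + (n : ℝ) • r‖ ^ 2 := by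
      have e : x + y + ((2 * n : ℕ) : ℝ) • r = (x + (n : ℝ) • r) + (y + (n : ℝ) • r) := by
        push_cast; module
      rw [e]
      have h5 := norm_add_le (x + (n : ℝ) • r) (y + (n : ℝ) • r)
      have h6 := norm_nonneg ((x + (n : ℝ) • r) + (y + (n : ℝ) • r))
      nlinarith [sq_nonneg (‖x + (n : ℝ) • r‖ - ‖y + (n : ℝ) • r‖), norm_nonneg (x + (n : ℝ) • r),
        norm_nonneg (y + (n : ℝ) • r)]
    rw [h1, h2, h3] at h4
    push_cast at h4
    have h7 : 0 ≤ ‖x + y‖ ^ 2 := by positivity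
    nlinarith
  refine le_antisymm (sub x y) ?_
  have h1 := sub (-x) (-y)
  have e1 : ‖-x + -y + r‖ = ‖x + y - r‖ := by rw [← norm_neg]; congr 1; abel
  have e2 : ‖-x + -y - r‖ = ‖x + y + r‖ := by rw [← norm_neg]; congr 1; abel
  have e3 : ‖-x + r‖ = ‖x - r‖ := by rw [← norm_neg]; congr 1; abel
  have e4 : ‖-x - r‖ = ‖x + r‖ := by rw [← norm_neg]; congr 1; abel
  have e5 : ‖-y + r‖ = ‖y - r‖ := by rw [← norm_neg]; congr 1; abel
  have e6 : ‖-y - r‖ = ‖y + r‖ := by rw [← norm_neg]; congr 1; abel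
  rw [e1, e2, e3, e4, e5, e6] at h1
  linarith

/-- parallelogram vectors are closed under sums -/
theorem Par.add {r s : E} (hr : Par r) (hs : Par s) : Par (r + s) := by
  have hr1 : ∀ x, ‖x + r‖ ^ 2 = ‖x‖ ^ 2 + ‖r‖ ^ 2 + (‖x + r‖ ^ 2 - ‖x - r‖ ^ 2) / 2 := by
    intro x; have := hr x; linarith
  have hs1 : ∀ x, ‖x + s‖ ^ 2 = ‖x‖ ^ 2 + ‖s‖ ^ 2 + (‖x + s‖ ^ 2 - ‖x - s‖ ^ 2) / 2 := by
    intro x; have := hs x; linarith
  have key : ∀ x, ‖x + (r + s)‖ ^ 2 = ‖x‖ ^ 2 + ‖r + s‖ ^ 2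
      + (‖x + r‖ ^ 2 - ‖x - r‖ ^ 2) / 2 + (‖x + s‖ ^ 2 - ‖x - s‖ ^ 2) / 2 := by
    intro x
    have e : x + (r + s) = (x + s) + r := by abel
    have h1 := hr1 (x + s)
    have h2 := hr.add_left x s
    have h3 := hs1 x
    have h4 := hr1 s
    have h5 : ‖r + s‖ = ‖s + r‖ := by rw [add_comm]
    rw [e, h5]
    linarith
  intro x
  have h1 := key x
  have h2 := key (-x)
  have e0 : ‖x - (r + s)‖ = ‖-x + (r + s)‖ := by rw [← norm_neg]; congr 1; abel
  have e3 : ‖-x + r‖ = ‖x - r‖ := by rw [← norm_neg]; congr 1; abel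
  have e4 : ‖-x - r‖ = ‖x + r‖ := by rw [← norm_neg]; congr 1; abel
  have e5 : ‖-x + s‖ = ‖x - s‖ := by rw [← norm_neg]; congr 1; abel
  have e6 : ‖-x - s‖ = ‖x + s‖ := by rw [← norm_neg]; congr 1; abel
  rw [e3, e4, e5, e6, norm_neg] at h2
  rw [e0]
  linarith

/-- the closed subspace of all vectors satisfying the parallelogram law -/
def parSub (E : Type*) [NormedAddCommGroup E] [NormedSpace ℝ E] : Submodule ℝ E where
  carrier := {r | ∀ t : ℝ, Par (t • r)}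
  zero_mem' := by
    intro t x
    simp; ring
  add_mem' := by
    intro r s hr hs t
    rw [smul_add]
    exact (hr t).add (hs t)
  smul_mem' := by
    intro c r hr t
    rw [smul_smul]
    exact hr _

theorem mem_parSub {r : E} : r ∈ parSub E ↔ ∀ t : ℝ, Par (t • r) := Iff.rfl

theorem isClosed_parSub : IsClosed (parSub E : Set E) := by
  have : (parSub E : Set E) = ⋂ (t : ℝ) (x : E), {r : E | ‖x + t • r‖ ^ 2 + ‖x - t • r‖ ^ 2
      = 2 * ‖x‖ ^ 2 + 2 * ‖t • r‖ ^ 2} := by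
    ext r
    simp only [SetLike.mem_coe, mem_parSub, Par, Set.mem_iInter, Set.mem_ofPred_eq]
  rw [this]
  refine isClosed_iInter fun t => isClosed_iInter fun x => ?_
  exact isClosed_eq (by fun_prop) (by fun_prop)

theorem map_mem_parSub (T : E ≃ₗᵢ[ℝ] E) {r : E} (hr : r ∈ parSub E) : T r ∈ parSub E := by
  intro t x
  have := hr t (T.symm x)
  have e1 : ‖x + t • T r‖ = ‖T.symm x + t • r‖ := by
    rw [← T.norm_map (T.symm x + t • r)]; simp
  have e2 : ‖x - t • T r‖ = ‖T.symm x - t • r‖ := by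
    rw [← T.norm_map (T.symm x - t • r)]; simp
  have e3 : ‖t • T r‖ = ‖t • r‖ := by
    rw [← T.norm_map (t • r)]; simp
  have e4 : ‖T.symm x‖ = ‖x‖ := T.symm.norm_map x
  rw [e1, e2, e3, ← e4]
  exact this

/-- two non-commuting `L^2`-projections produce a nonzero parallelogram vector -/
theorem exists_mem_parSub {P Q : E →ₗ[ℝ] E} (hP : IsLpProj 2 P) (hQ : IsLpProj 2 Q)
    (hne : ∃ x, P (Q x) ≠ Q (P x)) : ∃ r : E, r ≠ 0 ∧ r ∈ parSub E := by
  obtain ⟨r, hr, h⟩ := exists_cubic (by norm_num) hP hQ hne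
  refine ⟨r, hr, fun t => par_of_third fun x => ?_⟩
  have := h t x
  simp only [Real.rpow_two] at this
  exact this

/-- if all vectors are parallelogram vectors, the space is a Hilbert space -/
theorem hilbert_of_par {E : Type u} [NormedAddCommGroup E] [NormedSpace ℝ E] [CompleteSpace E]
    (h : ∀ r : E, Par r) :
    ∃ (H : Type u) (instH : NormedAddCommGroup H) (instI : InnerProductSpace ℝ H)
      (instC : CompleteSpace H), Nonempty (E ≃ₗᵢ[ℝ] H) := by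
  have hpar : ∀ x y : E, ‖x + y‖ * ‖x + y‖ + ‖x - y‖ * ‖x - y‖
      = 2 * (‖x‖ * ‖x‖ + ‖y‖ * ‖y‖) := by
    intro x y
    have := h y x
    nlinarith
  let I : InnerProductSpace ℝ E := InnerProductSpace.ofNorm ℝ hpar
  exact ⟨E, inferInstance, I, inferInstance, ⟨LinearIsometryEquiv.refl ℝ E⟩⟩

end Helper59.Rotation
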