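import Mathlib

/-!
# Separable Banach spaces with transitive norm are strictly convex
-/

open Filter Topology

universe u

namespace Helper59.Rotation

variable {E : Type u} [NormedAddCommGroup E] [NormedSpace ℝ E]

/-- uniqueness of the norming functional at `x` -/
def SmoothAt (x : E) : Prop := ∀ f g : StrongDual ℝ E, (∀ z, f z ≤ ‖z‖) → (∀ z, g z ≤ ‖z‖) →
  f x = ‖x‖ → g x = ‖x‖ → f = g

/-- on every segment there are points with small second difference in the direction of the
segment -/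
theorem exists_small_second_diff (x y : E) {ε c : ℝ} (hε : 0 < ε) (hc : 0 < c) :
    ∃ x' : E, ‖x' - x‖ < ε ∧ ∃ t : ℝ, 0 < t ∧ ‖x' + t • y‖ + ‖x' - t • y‖ - 2 * ‖x'‖ < t * c := by
  by_contra hcon
  push Not at hcon
  obtain ⟨N, hN⟩ := exists_nat_gt (2 * ‖y‖ / c)
  rw [div_lt_iff₀ hc] at hN
  set δ : ℝ := ε / (‖y‖ + 1) with hδ
  have hy1 : 0 < ‖y‖ + 1 := by positivity
  have hδ0 : 0 < δ := by positivity
  set h : ℝ := δ / (N + 1) with hh
  have hN1 : (0 : ℝ) < (N : ℝ) + 1 := by positivity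
  have hh0 : 0 < h := by positivity
  set a : ℕ → ℝ := fun k => ‖x + ((k : ℝ) * h) • y‖ with ha
  have hball : ∀ k : ℕ, (k : ℝ) ≤ N + 1 → ‖(x + ((k : ℝ) * h) • y) - x‖ < ε := by
    intro k hk
    rw [add_sub_cancel_left, norm_smul, Real.norm_eq_abs, abs_of_nonneg (by positivity)]
    have h1 : (k : ℝ) * h ≤ δ := by
      calc (k : ℝ) * h ≤ (N + 1) * h := by gcongr
        _ = δ := by rw [hh]; field_simp
    calc (k : ℝ) * h * ‖y‖ ≤ δ * ‖y‖ := by gcongr
      _ < δ * (‖y‖ + 1) := by
          apply mul_lt_mul_of_pos_left _ hδ0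
          linarith
      _ = ε := by rw [hδ]; field_simp
  have hstep : ∀ k : ℕ, k < N → h * c ≤ a (k + 2) + a k - 2 * a (k + 1) := by
    intro k hk
    have hk' : ((k + 1 : ℕ) : ℝ) ≤ N + 1 := by
      have : ((k + 1 : ℕ) : ℝ) ≤ N := by exact_mod_cast hk
      linarith
    have h1 := hcon (x + (((k + 1 : ℕ) : ℝ) * h) • y) (hball (k + 1) hk') h hh0
    have e1 : x + (((k + 1 : ℕ) : ℝ) * h) • y + h • y = x + (((k + 2 : ℕ) : ℝ) * h) • y := by
      push_cast; module
    have e2 : x + (((k + 1 : ℕ) : ℝ) * h) • y - h • y = x + ((k : ℝ) * h) • y := by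
      push_cast; module
    rw [e1, e2] at h1
    simpa [ha] using h1
  have hind : ∀ j : ℕ, j ≤ N → a 1 - a 0 + j * (h * c) ≤ a (j + 1) - a j := by
    intro j
    induction j with
    | zero => intro _; simp
    | succ j ih =>
      intro hj
      have h1 := ih (by omega)
      have h2 := hstep j (by omega)
      have e : a (j + 1 + 1) = a (j + 2) := rfl
      rw [e]
      push_cast
      linarith
  have hlip : ∀ k : ℕ, |a (k + 1) - a k| ≤ h * ‖y‖ := by
    intro k
    have h1 := abs_norm_sub_norm_le (x + (((k + 1 : ℕ) : ℝ) * h) • y) (x + ((k : ℝ) * h) • y)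
    have e : x + (((k + 1 : ℕ) : ℝ) * h) • y - (x + ((k : ℝ) * h) • y) = h • y := by
      push_cast; module
    rw [e, norm_smul, Real.norm_eq_abs, abs_of_pos hh0] at h1
    exact h1
  have h1 := hind N le_rfl
  have h2 := abs_le.mp (hlip N)
  have h3 := abs_le.mp (hlip 0)
  have h4 : (N : ℝ) * (h * c) ≤ 2 * (h * ‖y‖) := by
    have := h3.1
    simp only [zero_add] at this
    linarith [h2.2]
  have h5 : h * (2 * ‖y‖) < h * (N * c) := mul_lt_mul_of_pos_left hN hh0
  linarith

/-- **Mazur's theorem**: a separable Banach space has a nonzero smooth point. -/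
theorem exists_smooth_point [CompleteSpace E] [TopologicalSpace.SeparableSpace E]
    (hE : ∃ x : E, x ≠ 0) : ∃ x : E, x ≠ 0 ∧ SmoothAt x := by
  set y : ℕ → E := TopologicalSpace.denseSeq E with hy
  set U : ℕ × ℕ → Set E := fun p => {x | ∃ t : ℝ, 0 < t ∧
    ‖x + t • y p.1‖ + ‖x - t • y p.1‖ - 2 * ‖x‖ < t * (1 / ((p.2 : ℝ) + 1))} with hU
  have hopen : ∀ p, IsOpen (U p) := by
    intro p
    have : U p = ⋃ (t : ℝ) (_ : 0 < t), {x : E | ‖x + t • y p.1‖ + ‖x - t • y p.1‖ - 2 * ‖x‖
        < t * (1 / ((p.2 : ℝ) + 1))} := by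
      ext x; simp [hU]
    rw [this]
    refine isOpen_iUnion fun t => isOpen_iUnion fun _ => ?_
    exact isOpen_lt (by fun_prop) continuous_const
  have hdense : ∀ p, Dense (U p) := by
    intro p
    rw [Metric.dense_iff]
    intro x r hr
    obtain ⟨x', hx', t, ht, hxt⟩ := exists_small_second_diff x (y p.1) hr
      (c := 1 / ((p.2 : ℝ) + 1)) (by positivity)
    refine ⟨x', ?_, t, ht, hxt⟩
    rw [Metric.mem_ball, dist_eq_norm]
    exact hx'
  have hD := dense_iInter_of_isOpen hopen hdense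
  obtain ⟨x₀, hx₀⟩ := hE
  obtain ⟨x, hx1, hx2⟩ := hD.exists_mem_open (isOpen_compl_singleton (x := (0 : E))) ⟨x₀, hx₀⟩
  refine ⟨x, hx2, ?_⟩
  have key : ∀ f g : StrongDual ℝ E, (∀ z, f z ≤ ‖z‖) → (∀ z, g z ≤ ‖z‖) →
      f x = ‖x‖ → g x = ‖x‖ → ∀ n, f (y n) ≤ g (y n) := by
    intro f g hf hg hfx hgx n
    refine le_of_forall_pos_le_add fun ε hε => ?_
    obtain ⟨m, hm⟩ := exists_nat_one_div_lt hε
    obtain ⟨t, ht, hxt⟩ := Set.mem_iInter.mp hx1 (n, m)
    have h1 := hf (x + t • y n)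
    have h2 := hg (x - t • y n)
    rw [map_add, map_smul, hfx, smul_eq_mul] at h1
    rw [map_sub, map_smul, hgx, smul_eq_mul] at h2
    simp only at hxt
    have h3 : t * (f (y n) - g (y n)) < t * (1 / ((m : ℝ) + 1)) := by linarith
    have h4 := lt_of_mul_lt_mul_left h3 ht.le
    linarith
  intro f g hf hg hfx hgx
  have h1 : (fun z => f z) = (fun z => g z) := by
    refine DenseRange.equalizer (TopologicalSpace.denseRange_denseSeq E) f.continuous g.continuous
      (funext fun n => ?_)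
    exact le_antisymm (key f g hf hg hfx hgx n) (key g f hg hf hgx hfx n)
  ext z
  exact congrFun h1 z

/-- transitivity transports smoothness -/
theorem smoothAt_of_transitive [CompleteSpace E] [TopologicalSpace.SeparableSpace E]
    (htrans : ∀ x y : E, ‖x‖ = 1 → ‖y‖ = 1 → ∃ T : E ≃ₗᵢ[ℝ] E, T x = y)
    {x : E} (hx : ‖x‖ = 1) : SmoothAt x := by
  obtain ⟨x₀, hx₀, hs⟩ := exists_smooth_point (E := E) ⟨x, by
    intro h; rw [h, norm_zero] at hx; exact zero_ne_one hx⟩
  have hn : ‖x₀‖ ≠ 0 := norm_ne_zero_iff.mpr hx₀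
  obtain ⟨T, hT⟩ := htrans (‖x₀‖⁻¹ • x₀) x
    (by rw [norm_smul, norm_inv, norm_norm, inv_mul_cancel₀ hn]) hx
  have hTx : T x₀ = ‖x₀‖ • x := by
    rw [← hT, map_smul, smul_smul, mul_inv_cancel₀ hn, one_smul]
  intro f g hf hg hfx hgx
  let f' : StrongDual ℝ E := f ∘L (T.toContinuousLinearEquiv : E →L[ℝ] E)
  let g' : StrongDual ℝ E := g ∘L (T.toContinuousLinearEquiv : E →L[ℝ] E)
  have hf' : ∀ z, f' z = f (T z) := fun z => rfl
  have hg' : ∀ z, g' z = g (T z) := fun z => rfl
  have h := hs f' g' (fun z => by rw [hf', ← T.norm_map z]; exact hf _)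
    (fun z => by rw [hg', ← T.norm_map z]; exact hg _)
    (by rw [hf', hTx, map_smul, hfx, hx, smul_eq_mul, mul_one])
    (by rw [hg', hTx, map_smul, hgx, hx, smul_eq_mul, mul_one])
  ext z
  have h1 : f' (T.symm z) = g' (T.symm z) := by rw [h]
  rw [hf', hg', T.apply_symm_apply] at h1
  exact h1

omit [NormedSpace ℝ E] in
/-- a maximal element for the order given by a cone (Bishop-Phelps) -/
theorem exists_cone_maximal [CompleteSpace E] {C : Set E} (hC : IsClosed C) (hne : C.Nonempty)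
    (φ : E → ℝ) (hφ : Continuous φ) (B : ℝ) (hB : ∀ u ∈ C, φ u ≤ B) {lam : ℝ} (hlam : 0 < lam) :
    ∃ v ∈ C, ∀ u ∈ C, ‖u - v‖ ≤ lam * (φ u - φ v) → u = v := by
  obtain ⟨v₀, hv₀⟩ := hne
  have step : ∀ (n : ℕ) (v : C), ∃ u : C, ‖(u : E) - v‖ ≤ lam * (φ u - φ v) ∧
      ∀ w ∈ C, ‖w - v‖ ≤ lam * (φ w - φ v) → φ w ≤ φ u + (1 / 2 : ℝ) ^ n := by
    intro n v
    set S : Set ℝ := φ '' {w | w ∈ C ∧ ‖w - v‖ ≤ lam * (φ w - φ v)} with hS
    have hSne : S.Nonempty := ⟨φ v, v, ⟨v.2, by simp⟩, rfl⟩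
    have hSb : BddAbove S := ⟨B, by rintro _ ⟨w, ⟨hw, -⟩, rfl⟩; exact hB w hw⟩
    obtain ⟨_, ⟨u, ⟨hu1, hu2⟩, rfl⟩, hlt⟩ := exists_lt_of_lt_csSup hSne
      (show sSup S - (1 / 2 : ℝ) ^ n < sSup S by
        have : (0 : ℝ) < (1 / 2 : ℝ) ^ n := by positivity
        linarith)
    refine ⟨⟨u, hu1⟩, hu2, fun w hw1 hw2 => ?_⟩
    have : φ w ≤ sSup S := le_csSup hSb ⟨w, ⟨hw1, hw2⟩, rfl⟩
    have h2 : φ ((⟨u, hu1⟩ : C) : E) = φ u := rfl
    rw [h2]
    linarith
  choose F hF1 hF2 using step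
  obtain ⟨v, hv⟩ : ∃ v : ℕ → C, ∀ n, v (n + 1) = F n (v n) :=
    ⟨fun n => Nat.rec ⟨v₀, hv₀⟩ (fun n v => F n v) n, fun n => rfl⟩
  -- transitivity of the order
  have htr : ∀ x y z : E, ‖y - x‖ ≤ lam * (φ y - φ x) → ‖z - y‖ ≤ lam * (φ z - φ y) →
      ‖z - x‖ ≤ lam * (φ z - φ x) := by
    intro x y z h1 h2
    have : z - x = (z - y) + (y - x) := by abel
    rw [this]
    refine (norm_add_le _ _).trans ?_
    linarith
  have hsucc : ∀ n : ℕ, ‖(v (n + 1) : E) - (v n : E)‖
      ≤ lam * (φ (v (n + 1) : E) - φ (v n : E)) := by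
    intro n
    rw [hv]
    exact hF1 n (v n)
  have hsmall : ∀ n : ℕ, ∀ u ∈ C, ‖u - (v (n + 1) : E)‖ ≤ lam * (φ u - φ (v (n + 1) : E)) →
      ‖u - (v (n + 1) : E)‖ ≤ lam * (1 / 2 : ℝ) ^ n := by
    intro n u hu h
    have h1 := hF2 n (v n) u hu (htr _ _ _ (hsucc n) h)
    rw [← hv] at h1
    refine h.trans ?_
    gcongr
    linarith
  have hcauchy : CauchySeq (fun n => (v (n + 1) : E)) := by
    refine cauchySeq_of_le_geometric (1 / 2 : ℝ) lam (by norm_num) fun n => ?_
    rw [dist_comm, dist_eq_norm]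
    exact hsmall n _ (v (n + 1 + 1)).2 (hsucc (n + 1))
  obtain ⟨w, hw⟩ := cauchySeq_tendsto_of_complete hcauchy
  have hwC : w ∈ C := hC.mem_of_tendsto hw (Eventually.of_forall fun n => (v (n + 1)).2)
  -- the limit dominates the sequence
  have hmono : ∀ n k : ℕ, ‖(v (n + k) : E) - (v n : E)‖
      ≤ lam * (φ (v (n + k) : E) - φ (v n : E)) := by
    intro n k
    induction k with
    | zero => simp
    | succ k ih => exact htr _ _ _ ih (hsucc (n + k))
  have hlimit : ∀ n : ℕ, ‖w - (v (n + 1) : E)‖ ≤ lam * (φ w - φ (v (n + 1) : E)) := by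
    intro n
    have h1 : Tendsto (fun k => (v (n + 1 + k) : E)) atTop (𝓝 w) := by
      have := hw.comp (tendsto_add_atTop_nat n)
      refine this.congr fun k => ?_
      simp only [Function.comp_apply]
      rw [show k + n + 1 = n + 1 + k by ring]
    refine le_of_tendsto_of_tendsto ((h1.sub_const _).norm)
      ((((hφ.tendsto w).comp h1).sub_const _).const_mul lam) (Eventually.of_forall fun k => ?_)
    exact hmono (n + 1) k
  refine ⟨w, hwC, fun u hu h => ?_⟩
  have h1 : ∀ n : ℕ, ‖u - (v (n + 1) : E)‖ ≤ lam * (1 / 2 : ℝ) ^ n := fun n =>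
    hsmall n u hu (htr _ _ _ (hlimit n) h)
  have h2 : Tendsto (fun n : ℕ => ‖u - (v (n + 1) : E)‖) atTop (𝓝 0) := by
    refine squeeze_zero (fun n => norm_nonneg _) h1 ?_
    have := (tendsto_pow_atTop_nhds_zero_of_lt_one (by norm_num : (0 : ℝ) ≤ 1 / 2)
      (by norm_num : (1 / 2 : ℝ) < 1)).const_mul lam
    rwa [mul_zero] at this
  have h3 : Tendsto (fun n : ℕ => ‖u - (v (n + 1) : E)‖) atTop (𝓝 ‖u - w‖) :=
    (tendsto_const_nhds.sub hw).norm
  have h4 := tendsto_nhds_unique h2 h3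
  exact sub_eq_zero.mp (norm_eq_zero.mp h4.symm)

/-- **Separable Banach spaces with transitive norm are strictly convex.** -/
theorem rotund_of_transitive [CompleteSpace E] [TopologicalSpace.SeparableSpace E]
    (htrans : ∀ x y : E, ‖x‖ = 1 → ‖y‖ = 1 → ∃ T : E ≃ₗᵢ[ℝ] E, T x = y)
    {a b : E} (ha : ‖a‖ = 1) (hb : ‖b‖ = 1) (hab : ‖a + b‖ = 2) : a = b := by
  by_contra hne
  have hba : b - a ≠ 0 := sub_ne_zero.mpr (Ne.symm hne)
  -- a functional norming `a + b`
  obtain ⟨f, hf1, hfab⟩ := exists_dual_vector ℝ (a + b) (by rw [hab]; norm_num)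
  have hfle : ∀ z, f z ≤ ‖z‖ := fun z => by
    refine (le_abs_self _).trans ?_
    have := f.le_opNorm z
    rwa [hf1, one_mul, Real.norm_eq_abs] at this
  have hfab' : f a + f b = 2 := by
    rw [← map_add, hfab, hab]; norm_num
  have hfa : f a = 1 := by
    have h1 := hfle a; have h2 := hfle b
    rw [ha] at h1; rw [hb] at h2; linarith
  have hfb : f b = 1 := by linarith
  -- the face
  set C : Set E := {z | ‖z‖ ≤ 1 ∧ f z = 1} with hC
  have hCclosed : IsClosed C :=
    (isClosed_le continuous_norm continuous_const).inter (isClosed_eq f.continuous continuous_const)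
  have haC : a ∈ C := ⟨ha.le, hfa⟩
  have hbC : b ∈ C := ⟨hb.le, hfb⟩
  have hCnorm : ∀ z ∈ C, ‖z‖ = 1 := fun z hz =>
    le_antisymm hz.1 (by rw [← hz.2]; exact hfle z)
  -- isometries mapping one point of the face to another preserve the face
  have hface : ∀ (T : E ≃ₗᵢ[ℝ] E) (z v : E), z ∈ C → v ∈ C → T z = v → ∀ u, f (T u) = f u := by
    intro T z v hz hv hT u
    let g : StrongDual ℝ E := f ∘L (T.toContinuousLinearEquiv : E →L[ℝ] E)
    have hg : ∀ w, g w = f (T w) := fun w => rfl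
    have h := smoothAt_of_transitive htrans (hCnorm z hz) g f
      (fun w => by rw [hg, ← T.norm_map w]; exact hfle _) hfle
      (by rw [hg, hT, hv.2, hCnorm z hz]) (by rw [hz.2, hCnorm z hz])
    rw [← hg, h]
  -- a dense sequence in the face
  have : SecondCountableTopology E := UniformSpace.secondCountable_of_separable E
  have : Nonempty C := ⟨⟨a, haC⟩⟩
  set w : ℕ → C := TopologicalSpace.denseSeq C with hw
  have hwdense : DenseRange w := TopologicalSpace.denseRange_denseSeq C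
  -- infinite convex combinations stay in the face
  have hconv : ∀ c : ℕ → ℝ, (∀ k, 0 ≤ c k) → HasSum c 1 → ∃ z ∈ C,
      HasSum (fun k => c k • (w k : E)) z := by
    intro c hc hsum
    have hs : Summable (fun k => c k • (w k : E)) := by
      refine Summable.of_norm_bounded hsum.summable fun k => ?_
      rw [norm_smul, Real.norm_eq_abs, abs_of_nonneg (hc k), hCnorm _ (w k).2, mul_one]
    refine ⟨∑' k, c k • (w k : E), ⟨?_, ?_⟩, hs.hasSum⟩
    · have h1 : ‖∑' k, c k • (w k : E)‖ ≤ ∑' k, c k := by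
        refine tsum_of_norm_bounded hsum.summable.hasSum fun k => ?_
        rw [norm_smul, Real.norm_eq_abs, abs_of_nonneg (hc k), hCnorm _ (w k).2, mul_one]
      rwa [hsum.tsum_eq] at h1
    · have h1 := f.hasSum hs.hasSum
      have h2 : (fun k => f (c k • (w k : E))) = c := by
        funext k
        rw [map_smul, (w k).2.2, smul_eq_mul, mul_one]
      rw [h2] at h1
      exact h1.unique hsum
  have hgeo : HasSum (fun k : ℕ => (1 / 2 : ℝ) ^ (k + 1)) 1 := by
    have h0 := hasSum_geometric_two' (1 : ℝ)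
    have e : (fun n : ℕ => (1 : ℝ) / 2 / 2 ^ n) = fun k : ℕ => (1 / 2 : ℝ) ^ (k + 1) := by
      funext k
      rw [pow_succ, one_div_pow]
      ring
    rwa [e] at h0
  obtain ⟨z, hzC, hzs⟩ := hconv (fun k => (1 / 2 : ℝ) ^ (k + 1)) (fun k => by positivity) hgeo
  -- from `z` one can move inside the face in the directions `w n - w m`
  have hmove : ∀ n m : ℕ, ∃ μ : ℝ, 0 < μ ∧ z + μ • ((w n : E) - w m) ∈ C := by
    intro n m
    refine ⟨(1 / 2 : ℝ) ^ (m + 1), by positivity, ?_⟩
    set μ : ℝ := (1 / 2 : ℝ) ^ (m + 1) with hμ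
    have h1 : HasSum (fun k : ℕ => (1 / 2 : ℝ) ^ (k + 1) + ((if k = n then μ else 0)
        - (if k = m then μ else 0))) (1 + (μ - μ)) :=
      hgeo.add ((hasSum_ite_eq n μ).sub (hasSum_ite_eq m μ))
    rw [sub_self, add_zero] at h1
    obtain ⟨z', hz'C, hz's⟩ := hconv _ (fun k => by
      by_cases hkm : k = m
      · subst hkm
        rw [if_pos rfl]
        by_cases hkn : k = n
        · rw [if_pos hkn]
          have : (0 : ℝ) < (1 / 2 : ℝ) ^ (k + 1) := by positivity
          linarith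
        · rw [if_neg hkn, hμ]
          linarith
      · rw [if_neg hkm]
        by_cases hkn : k = n
        · rw [if_pos hkn]
          have h5 : (0 : ℝ) < (1 / 2 : ℝ) ^ (k + 1) := by positivity
          have h6 : (0 : ℝ) < μ := by positivity
          linarith
        · rw [if_neg hkn]
          have : (0 : ℝ) < (1 / 2 : ℝ) ^ (k + 1) := by positivity
          linarith) h1
    have h2 : HasSum (fun k : ℕ => ((1 / 2 : ℝ) ^ (k + 1) + ((if k = n then μ else 0)
        - (if k = m then μ else 0))) • (w k : E)) (z + (μ • (w n : E) - μ • (w m : E))) := by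
      have h3 : HasSum (fun k : ℕ => if k = n then μ • (w n : E) else 0) (μ • (w n : E)) :=
        hasSum_ite_eq n _
      have h4 : HasSum (fun k : ℕ => if k = m then μ • (w m : E) else 0) (μ • (w m : E)) :=
        hasSum_ite_eq m _
      refine (hzs.add (h3.sub h4)).congr_fun ?_
      intro k
      by_cases hkn : k = n
      · subst hkn
        by_cases hkm : k = m
        · subst hkm
          simp
        · simp only [if_neg hkm, if_true]; module
      · by_cases hkm : k = m
        · subst hkm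
          simp only [if_neg hkn, if_true]; module
        · simp only [if_neg hkn, if_neg hkm]; module
    rw [smul_sub, h2.unique hz's]
    exact hz'C
  -- a functional norming `b - a` and a maximal element
  obtain ⟨φ, hφ1, hφba⟩ := exists_dual_vector ℝ (b - a) (norm_ne_zero_iff.mpr hba)
  have hφle : ∀ z, φ z ≤ ‖z‖ := fun z => by
    refine (le_abs_self _).trans ?_
    have := φ.le_opNorm z
    rwa [hφ1, one_mul, Real.norm_eq_abs] at this
  obtain ⟨v, hvC, hvmax⟩ := exists_cone_maximal hCclosed ⟨a, haC⟩ (fun z => φ z) φ.continuous 1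
    (fun u hu => (hφle u).trans hu.1) (lam := 2) (by norm_num)
  obtain ⟨T, hT⟩ := htrans z v (hCnorm z hzC) (hCnorm v hvC)
  have hfT := hface T z v hzC hvC hT
  have hTC : ∀ u, u ∈ C → T u ∈ C := fun u hu => ⟨by rw [T.norm_map]; exact hu.1, by
    rw [hfT]; exact hu.2⟩
  have hTC' : ∀ u, u ∈ C → T.symm u ∈ C := fun u hu => ⟨by rw [T.symm.norm_map]; exact hu.1, by
    rw [← hfT, T.apply_symm_apply]; exact hu.2⟩
  -- the Lipschitz estimate for differences of the dense sequence
  have hlip : ∀ n m : ℕ, 2 * φ (T ((w n : E) - w m)) ≤ ‖(w n : E) - w m‖ := by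
    intro n m
    by_contra hlt
    push Not at hlt
    obtain ⟨μ, hμ, hmem⟩ := hmove n m
    have h1 := hTC _ hmem
    rw [map_add, hT, map_smul] at h1
    have h2 := hvmax _ h1 (by
      rw [add_sub_cancel_left, map_add, add_sub_cancel_left, norm_smul, map_smul,
        Real.norm_eq_abs, abs_of_pos hμ, T.norm_map, smul_eq_mul]
      have := mul_le_mul_of_nonneg_left hlt.le hμ.le
      linarith)
    have h3 : μ • T ((w n : E) - w m) = 0 := by
      have : v + μ • T ((w n : E) - w m) - v = 0 := sub_eq_zero.mpr h2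
      rwa [add_sub_cancel_left] at this
    have h4 : T ((w n : E) - w m) = 0 := by
      rcases smul_eq_zero.mp h3 with h | h
      · exact absurd h hμ.ne'
      · exact h
    rw [h4, map_zero, mul_zero] at hlt
    exact absurd hlt (not_lt.mpr (norm_nonneg _))
  -- extend by density
  have hlip' : ∀ c d : C, 2 * φ (T ((c : E) - d)) ≤ ‖(c : E) - d‖ := by
    have h1 : ∀ n : ℕ, ∀ d : C, 2 * φ (T ((w n : E) - d)) ≤ ‖(w n : E) - d‖ := by
      intro n d
      refine hwdense.induction_on (p := fun d : C =>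
        2 * φ (T ((w n : E) - d)) ≤ ‖(w n : E) - d‖) d ?_ ?_
      · refine isClosed_le ?_ ?_
        · exact continuous_const.mul (φ.continuous.comp (T.continuous.comp
            (continuous_const.sub continuous_subtype_val)))
        · exact (continuous_const.sub continuous_subtype_val).norm
      · exact fun m => hlip n m
    intro c d
    refine hwdense.induction_on (p := fun c : C =>
        2 * φ (T ((c : E) - d)) ≤ ‖(c : E) - d‖) c ?_ ?_
    · refine isClosed_le ?_ ?_
      · exact continuous_const.mul (φ.continuous.comp (T.continuous.comp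
          (continuous_subtype_val.sub continuous_const)))
      · exact (continuous_subtype_val.sub continuous_const).norm
    · exact fun n => h1 n d
  have h1 := hlip' ⟨T.symm b, hTC' b hbC⟩ ⟨T.symm a, hTC' a haC⟩
  simp only [← map_sub, T.apply_symm_apply, T.symm.norm_map] at h1
  have h2 : φ (b - a) = ‖b - a‖ := by
    rw [hφba]; simp
  rw [h2] at h1
  have h3 : 0 < ‖b - a‖ := norm_pos_iff.mpr hba
  linarith

end Helper59.Rotation
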