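import Mathlib

/-!
# Commuting families of operators on separable Banach spaces
-/

open Filter Topology

universe u v

namespace Helper59.Rotation

variable {E : Type u} [NormedAddCommGroup E] [NormedSpace ℝ E]

/-- finite products of the operators `1 - g i` isolate a vector of a triangular family -/
theorem isolate_tri {κ : Type v} [LinearOrder κ] (e : κ → ℕ) (he : Function.Injective e)
    (𝒞 : Set (E →L[ℝ] E)) (M : ℝ) (hM0 : 0 ≤ M) (hM : ∀ g ∈ 𝒞, ∀ x, ‖g x‖ ≤ M * ‖x‖)
    (hcomm : ∀ g ∈ 𝒞, ∀ g' ∈ 𝒞, ∀ x, g (g' x) = g' (g x))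
    (a : κ → E) (g : κ → E →L[ℝ] E) (hg : ∀ i, g i ∈ 𝒞) (hfix : ∀ i, g i (a i) = a i)
    (hkill : ∀ i j, j < i → g i (a j) = 0) (β : κ) (K : ℕ) :
    ∃ U : E →L[ℝ] E, U (a β) = a β ∧ (∀ i, β < i → e i < K → U (a i) = 0) ∧
      (∀ x, ‖U x‖ ≤ (1 + M) ^ K * ‖x‖) ∧ ∀ h ∈ 𝒞, ∀ x, h (U x) = U (h x) := by
  classical
  induction K with
  | zero =>
    exact ⟨ContinuousLinearMap.id ℝ E, rfl, fun i _ h => absurd h (Nat.not_lt_zero _),
      fun x => by simp, fun h _ x => rfl⟩
  | succ K ih =>
    obtain ⟨U, h1, h2, h3, h4⟩ := ih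
    by_cases hex : ∃ i, e i = K ∧ β < i
    · obtain ⟨i, hiK, hβi⟩ := hex
      refine ⟨U ∘L (ContinuousLinearMap.id ℝ E - g i), ?_, ?_, ?_, ?_⟩
      · simp [hkill i β hβi, h1]
      · intro j hj hjK
        by_cases hji : j = i
        · rw [hji]; simp [hfix i]
        · have hjK' : e j < K := by
            rcases Nat.lt_succ_iff_lt_or_eq.mp hjK with h | h
            · exact h
            · exact absurd (he (h.trans hiK.symm)) hji
          simp only [ContinuousLinearMap.comp_apply, sub_apply,
            ContinuousLinearMap.id_apply, map_sub]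
          rw [← h4 _ (hg i), h2 j hj hjK', map_zero, sub_zero]
      · intro x
        simp only [ContinuousLinearMap.comp_apply, sub_apply,
          ContinuousLinearMap.id_apply]
        calc ‖U (x - g i x)‖ ≤ (1 + M) ^ K * ‖x - g i x‖ := h3 _
          _ ≤ (1 + M) ^ K * (‖x‖ + M * ‖x‖) := by
              gcongr
              exact (norm_sub_le _ _).trans (by gcongr; exact hM _ (hg i) x)
          _ = (1 + M) ^ (K + 1) * ‖x‖ := by ring
      · intro h hh x
        simp only [ContinuousLinearMap.comp_apply, sub_apply,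
          ContinuousLinearMap.id_apply]
        rw [h4 h hh, map_sub, hcomm h hh _ (hg i)]
    · refine ⟨U, h1, ?_, ?_, h4⟩
      · intro j hj hjK
        rcases Nat.lt_succ_iff_lt_or_eq.mp hjK with h | h
        · exact h2 j hj h
        · exact absurd ⟨j, h, hj⟩ hex
      · intro x
        refine (h3 x).trans ?_
        gcongr
        · linarith
        · omega

/-- a countable triangular family is dominated by a single vector -/
theorem exists_dominating [CompleteSpace E] {κ : Type v} [LinearOrder κ] [WellFoundedLT κ]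
    [Countable κ] (𝒞 : Set (E →L[ℝ] E)) (M : ℝ) (hM0 : 0 ≤ M)
    (hM : ∀ g ∈ 𝒞, ∀ x, ‖g x‖ ≤ M * ‖x‖)
    (hcomm : ∀ g ∈ 𝒞, ∀ g' ∈ 𝒞, ∀ x, g (g' x) = g' (g x))
    (a : κ → E) (g : κ → E →L[ℝ] E) (ha : ∀ i, ‖a i‖ = 1) (hg : ∀ i, g i ∈ 𝒞)
    (hfix : ∀ i, g i (a i) = a i) (hkill : ∀ i j, j < i → g i (a j) = 0) :
    ∃ x : E, ∀ h ∈ 𝒞, h x = 0 → ∀ i, h (a i) = 0 := by
  classical
  obtain ⟨e, he⟩ := Countable.exists_injective_nat κ
  set c : ℝ := 1 + M with hc
  have hc1 : 1 ≤ c := by rw [hc]; linarith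
  have hc0 : 0 < c := by linarith
  set w : κ → ℝ := fun i => (1 / (2 * c)) ^ (e i) with hw
  have hw0 : ∀ i, 0 < w i := fun i => by rw [hw]; positivity
  have hgeo : Summable (fun i : κ => (1 / 2 : ℝ) ^ (e i)) :=
    (summable_geometric_of_lt_one (by norm_num) (by norm_num)).comp_injective he
  have hcw : ∀ i, c ^ (e i) * w i = (1 / 2 : ℝ) ^ (e i) := by
    intro i
    rw [hw, ← mul_pow]
    congr 1
    field_simp
  have hwle : ∀ i, w i ≤ (1 / 2 : ℝ) ^ (e i) := by
    intro i
    rw [← hcw i]
    exact le_mul_of_one_le_left (hw0 i).le (one_le_pow₀ hc1)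
  have hsum : Summable (fun i => w i • a i) := by
    refine Summable.of_norm_bounded hgeo fun i => ?_
    rw [norm_smul, ha, mul_one, Real.norm_eq_abs, abs_of_pos (hw0 i)]
    exact hwle i
  refine ⟨∑' i, w i • a i, ?_⟩
  intro h hh hx β
  induction β using WellFoundedLT.induction with
  | ind β ih =>
    choose U hU1 hU2 hU3 hU4 using
      isolate_tri e he 𝒞 M hM0 hM hcomm a g hg hfix hkill β
    -- the sums `∑ i, h (U K (w i • a i))` vanish
    have hzero : ∀ K, ∑' i, h (U K (w i • a i)) = 0 := by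
      intro K
      have h1 : HasSum (fun i => h (U K (w i • a i))) (h (U K (∑' i, w i • a i))) := by
        exact h.hasSum ((U K).hasSum hsum.hasSum)
      rw [h1.tsum_eq, hU4 K h hh, hx, map_zero]
    have hlim : Tendsto (fun K => ∑' i, h (U K (w i • a i))) atTop
        (𝓝 (∑' i, if i = β then w β • h (a β) else 0)) := by
      refine tendsto_tsum_of_dominated_convergence (bound := fun i => M * (1 / 2 : ℝ) ^ (e i)
        + M * (if i = β then 1 else 0)) ?_ ?_ ?_
      · refine (hgeo.mul_left M).add (Summable.mul_left M ?_)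
        exact (hasSum_ite_eq β (1 : ℝ)).summable
      · intro i
        rcases lt_trichotomy i β with hi | hi | hi
        · have : ∀ K, h (U K (w i • a i)) = 0 := by
            intro K
            rw [map_smul, map_smul, hU4 K h hh, ih i hi, map_zero, smul_zero]
          simp only [this, if_neg hi.ne]
          exact tendsto_const_nhds
        · have : ∀ K, h (U K (w i • a i)) = w β • h (a β) := by
            intro K
            rw [hi, map_smul, map_smul, hU1 K]
          simp only [this, if_pos hi]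
          exact tendsto_const_nhds
        · rw [if_neg hi.ne']
          refine tendsto_const_nhds.congr' ?_
          filter_upwards [eventually_gt_atTop (e i)] with K hK
          rw [map_smul, hU2 K i hi hK, smul_zero, map_zero]
      · refine Eventually.of_forall fun K i => ?_
        have hpos : 0 ≤ M * (1 / 2 : ℝ) ^ (e i) := by positivity
        rcases lt_trichotomy i β with hi | hi | hi
        · rw [map_smul, map_smul, hU4 K h hh, ih i hi, map_zero, smul_zero, norm_zero,
            if_neg hi.ne, mul_zero, add_zero]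
          exact hpos
        · rw [hi, map_smul, map_smul, hU1 K, if_pos rfl, mul_one, norm_smul, Real.norm_eq_abs,
            abs_of_pos (hw0 β)]
          have h1 : ‖h (a β)‖ ≤ M := by
            have := hM h hh (a β)
            rwa [ha, mul_one] at this
          have h2 : w β ≤ 1 := (hwle β).trans (pow_le_one₀ (by norm_num) (by norm_num))
          have h3 : w β * ‖h (a β)‖ ≤ 1 * M := by
            gcongr
          have : 0 ≤ M * (1 / 2 : ℝ) ^ (e β) := by positivity
          linarith
        · rw [if_neg hi.ne', mul_zero, add_zero]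
          by_cases hK : e i < K
          · rw [map_smul, hU2 K i hi hK, smul_zero, map_zero, norm_zero]
            exact hpos
          · push Not at hK
            calc ‖h (U K (w i • a i))‖ ≤ M * ‖U K (w i • a i)‖ := hM h hh _
              _ ≤ M * (c ^ K * ‖w i • a i‖) := by gcongr; exact hU3 K _
              _ = M * (c ^ K * w i) := by
                  rw [norm_smul, ha, mul_one, Real.norm_eq_abs, abs_of_pos (hw0 i)]
              _ ≤ M * (c ^ (e i) * w i) := by
                  have := (hw0 i).le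
                  gcongr
              _ = M * (1 / 2 : ℝ) ^ (e i) := by rw [hcw]
    simp only [hzero] at hlim
    rw [tsum_ite_eq] at hlim
    have h1 : w β • h (a β) = 0 := tendsto_nhds_unique hlim tendsto_const_nhds
    rcases smul_eq_zero.mp h1 with h2 | h2
    · exact absurd h2 (hw0 β).ne'
    · exact h2

open Ordinal Cardinal in
/-- On a separable Banach space, a bounded commuting family of operators cannot contain, for every
vector `x`, an operator killing `x` and fixing some nonzero vector. -/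
theorem false_of_commuting [CompleteSpace E] [TopologicalSpace.SeparableSpace E]
    (𝒞 : Set (E →L[ℝ] E)) (M : ℝ) (hM : ∀ g ∈ 𝒞, ∀ x, ‖g x‖ ≤ M * ‖x‖)
    (hcomm : ∀ g ∈ 𝒞, ∀ g' ∈ 𝒞, ∀ x, g (g' x) = g' (g x))
    (H : ∀ x : E, ∃ g ∈ 𝒞, g x = 0 ∧ ∃ b, b ≠ 0 ∧ g b = b) : False := by
  classical
  have hM0 : 0 < M := by
    obtain ⟨g, hg, -, b, hb, hgb⟩ := H 0
    have h1 := hM g hg b
    rw [hgb] at h1
    have h2 : 0 < ‖b‖ := norm_pos_iff.mpr hb
    by_contra hneg
    push Not at hneg
    nlinarith
  let ι : Type 1 := Set.Iio (ω₁ : Ordinal.{0})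
  let Good : Set E → E × (E →L[ℝ] E) → Prop := fun prev p =>
    ‖p.1‖ = 1 ∧ p.2 ∈ 𝒞 ∧ p.2 p.1 = p.1 ∧ ∀ y ∈ prev, p.2 y = 0
  let F : ι → E × (E →L[ℝ] E) := WellFounded.fix (C := fun _ => E × (E →L[ℝ] E))
    (wellFounded_lt (α := ι)) (fun i rec =>
      if h : ∃ p, Good {y | ∃ j, ∃ hj : j < i, y = (rec j hj).1} p then h.choose else (0, 0))
  have hF : ∀ i, F i = if h : ∃ p, Good {y | ∃ j, ∃ _ : j < i, y = (F j).1} p
      then h.choose else (0, 0) := fun i => WellFounded.fix_eq _ _ i
  have hgood : ∀ i, Good {y | ∃ j, ∃ _ : j < i, y = (F j).1} (F i) := by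
    intro i
    induction i using WellFoundedLT.induction with
    | ind i ih =>
      have hex : ∃ p, Good {y | ∃ j, ∃ _ : j < i, y = (F j).1} p := by
        let κ : Type 1 := Set.Iio i
        have hcount : Countable κ := by
          have h1 : (Set.Iio (i : Ordinal.{0})).Countable := by
            rw [← Cardinal.le_aleph0_iff_set_countable, Cardinal.mk_Iio_ordinal,
              Cardinal.lift_le_aleph0, ← Cardinal.lt_aleph_one_iff, ← Cardinal.lt_omega_iff_card_lt]
            exact i.2
          have h2 : Function.Injective (fun j : κ => (⟨((j : ι) : Ordinal.{0}), j.2⟩ :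
              Set.Iio (i : Ordinal.{0}))) := by
            intro j k hjk
            have := congrArg Subtype.val hjk
            exact Subtype.ext (Subtype.ext this)
          have := h1.to_subtype
          exact h2.countable
        obtain ⟨x, hx⟩ := exists_dominating (κ := κ) 𝒞 M hM0.le hM hcomm
          (fun j => (F j).1) (fun j => (F j).2)
          (fun j => (ih j j.2).1) (fun j => (ih j j.2).2.1) (fun j => (ih j j.2).2.2.1)
          (fun j k hkj => (ih j j.2).2.2.2 _ ⟨k, hkj, rfl⟩)
        obtain ⟨g, hg, hgx, b, hb, hgb⟩ := H x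
        have hbn : ‖b‖ ≠ 0 := norm_ne_zero_iff.mpr hb
        refine ⟨(‖b‖⁻¹ • b, g), ?_, hg, ?_, ?_⟩
        · rw [norm_smul, norm_inv, norm_norm, inv_mul_cancel₀ hbn]
        · rw [map_smul, hgb]
        · rintro y ⟨j, hj, rfl⟩
          exact hx g hg hgx ⟨j, hj⟩
      rw [hF i, dif_pos hex]
      exact hex.choose_spec
  -- an uncountable separated family
  have hdisj : Pairwise (Function.onFun Disjoint
      (fun i : ι => Metric.ball (F i).1 (1 / (2 * M)))) := by
    have key : ∀ i j : ι, j < i → Disjoint (Metric.ball (F i).1 (1 / (2 * M)))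
        (Metric.ball (F j).1 (1 / (2 * M))) := by
      intro i j hj
      refine Metric.ball_disjoint_ball ?_
      obtain ⟨h1, h2, h3, h4⟩ := hgood i
      have h5 := hM _ h2 ((F i).1 - (F j).1)
      rw [map_sub, h3, h4 _ ⟨j, hj, rfl⟩, _root_.sub_zero, h1] at h5
      rw [dist_eq_norm]
      have h6 : 1 / (2 * M) + 1 / (2 * M) = 1 / M := by field_simp; norm_num
      rw [h6, div_le_iff₀ hM0]
      linarith
    intro i j hij
    rcases lt_or_gt_of_ne hij with h | h
    · exact (key j i h).symm
    · exact key i j h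
  have hcount : Countable ι := hdisj.countable_of_isOpen_disjoint
    (fun i => Metric.isOpen_ball) (fun i => ⟨_, Metric.mem_ball_self (by positivity)⟩)
  have h1 : (Set.Iio (ω₁ : Ordinal.{0})).Countable := Set.countable_coe_iff.mp hcount
  rw [← Cardinal.le_aleph0_iff_set_countable, Cardinal.mk_Iio_ordinal,
    Cardinal.lift_le_aleph0, ← Cardinal.lt_aleph_one_iff, ← Cardinal.lt_omega_iff_card_lt] at h1
  exact lt_irrefl _ h1

/-- **Theorem D.** On a separable real Banach space with transitive norm, a bounded operator which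
commutes with all its conjugates by surjective linear isometries has at most one real eigenvalue. -/
theorem eigenvalue_unique [CompleteSpace E] [TopologicalSpace.SeparableSpace E]
    (htrans : ∀ x y : E, ‖x‖ = 1 → ‖y‖ = 1 → ∃ T : E ≃ₗᵢ[ℝ] E, T x = y)
    (h : E →L[ℝ] E) (hcomm : ∀ (T : E ≃ₗᵢ[ℝ] E) (x : E), h (T (h (T.symm x))) = T (h (T.symm (h x))))
    (lam mu : ℝ) (z b : E) (hz : z ≠ 0) (hb : b ≠ 0) (hlz : h z = lam • z) (hmb : h b = mu • b) :
    lam = mu := by
  by_contra hne
  have hd : mu - lam ≠ 0 := fun h => hne (by linarith)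
  -- two conjugates of `h` commute
  have hTS : ∀ (T S : E ≃ₗᵢ[ℝ] E) (x : E),
      T (h (T.symm (S (h (S.symm x))))) = S (h (S.symm (T (h (T.symm x))))) := by
    intro T S x
    have := hcomm (S.trans T.symm) (T.symm x)
    simp only [LinearIsometryEquiv.symm_trans, LinearIsometryEquiv.symm_symm,
      LinearIsometryEquiv.trans_apply, LinearIsometryEquiv.apply_symm_apply] at this
    rw [this]
    simp
  -- the normalised operator `k = (h - lam) / (mu - lam)`
  let cnj : (E ≃ₗᵢ[ℝ] E) → (E →L[ℝ] E) := fun T =>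
    (T.toContinuousLinearEquiv : E →L[ℝ] E) ∘L
      ((mu - lam)⁻¹ • (h - lam • ContinuousLinearMap.id ℝ E)) ∘L
      (T.symm.toContinuousLinearEquiv : E →L[ℝ] E)
  have hcnj : ∀ T x, cnj T x = (mu - lam)⁻¹ • (T (h (T.symm x)) - lam • x) := by
    intro T x
    simp [cnj]
  refine false_of_commuting {g | ∃ T, g = cnj T}
    (‖(mu - lam)⁻¹ • (h - lam • ContinuousLinearMap.id ℝ E)‖) ?_ ?_ ?_
  · rintro g ⟨T, rfl⟩ x
    have : cnj T x = T (((mu - lam)⁻¹ • (h - lam • ContinuousLinearMap.id ℝ E)) (T.symm x)) := rfl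
    rw [this, T.norm_map]
    refine (ContinuousLinearMap.le_opNorm _ _).trans ?_
    rw [T.symm.norm_map]
  · rintro g ⟨T, rfl⟩ g' ⟨S, rfl⟩ x
    rw [hcnj T, hcnj S, hcnj S, hcnj T]
    simp only [map_smul, map_sub]
    rw [hTS T S x]
    module
  · intro x
    by_cases hx : x = 0
    · refine ⟨cnj (LinearIsometryEquiv.refl ℝ E), ⟨_, rfl⟩, by rw [hx, map_zero], b, hb, ?_⟩
      rw [hcnj]
      change (mu - lam)⁻¹ • (h b - lam • b) = b
      rw [hmb, ← sub_smul, smul_smul, inv_mul_cancel₀ hd, one_smul]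
    · have hxn : ‖x‖ ≠ 0 := norm_ne_zero_iff.mpr hx
      have hzn : ‖z‖ ≠ 0 := norm_ne_zero_iff.mpr hz
      obtain ⟨T, hT⟩ := htrans (‖z‖⁻¹ • z) (‖x‖⁻¹ • x)
        (by rw [norm_smul, norm_inv, norm_norm, inv_mul_cancel₀ hzn])
        (by rw [norm_smul, norm_inv, norm_norm, inv_mul_cancel₀ hxn])
      have hTx : T.symm x = ‖x‖ • ‖z‖⁻¹ • z := by
        have h1 : x = ‖x‖ • T (‖z‖⁻¹ • z) := by
          rw [hT, smul_smul, mul_inv_cancel₀ hxn, one_smul]
        rw [← map_smul] at h1
        have h2 := congrArg T.symm h1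
        rwa [T.symm_apply_apply] at h2
      refine ⟨cnj T, ⟨T, rfl⟩, ?_, T b, ?_, ?_⟩
      · have h1 : h (T.symm x) = lam • T.symm x := by
          rw [hTx, map_smul, map_smul, hlz]; module
        rw [hcnj, h1, map_smul, T.apply_symm_apply, sub_self, smul_zero]
      · exact (map_ne_zero_iff T T.injective).mpr hb
      · rw [hcnj, T.symm_apply_apply, hmb, map_smul, ← sub_smul, smul_smul,
          inv_mul_cancel₀ hd, one_smul]

end Helper59.Rotation
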